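import Pool.Agent.P.MP_1fec7a_co.K68.Rot
import Pool.Agent.P.MP_1fec7a_co.CP

/-! The geometry of the cliques of a clique partitioned graph and the Euler bound. -/

namespace Pool.Agent.P.MP_1fec7a_co.K68

open Finset

variable {V : Type} [DecidableEq V]

/-- The weight of a clique with `d` vertices. -/
noncomputable def fw (d : ℕ) : ℝ := max (((d : ℝ) - 1) / 2) (3 * ((d : ℝ) - 2) / 4)

/-- The graph `G` with all edges that leave `U` removed. -/
def res (G : SimpleGraph V) (U : Finset V) : SimpleGraph V where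
  Adj u v := G.Adj u v ∧ u ∈ U ∧ v ∈ U
  symm := ⟨fun _ _ h => ⟨h.1.symm, h.2.2, h.2.1⟩⟩
  loopless := ⟨fun _ h => h.1.ne rfl⟩

/-- `L` is the family of the maximal cliques with at least two vertices of the diamond free graph
`G`, all of whose edges lie in `U`. -/
structure Geo (G : SimpleGraph V) (U : Finset V) (L : Finset (Finset V)) : Prop where
  sub : ∀ K ∈ L, K ⊆ U
  two : ∀ K ∈ L, 2 ≤ K.card
  cl : ∀ K ∈ L, ∀ u ∈ K, ∀ v ∈ K, u ≠ v → G.Adj u v
  cov : ∀ u v, G.Adj u v → ∃ K ∈ L, u ∈ K ∧ v ∈ K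
  out : ∀ K ∈ L, ∀ u ∈ K, ∀ v ∈ K, u ≠ v → ∀ w, G.Adj u w → G.Adj v w → w ∈ K

omit [DecidableEq V] in
theorem Geo.sub_of {G : SimpleGraph V} {U : Finset V} {L : Finset (Finset V)} (h : Geo G U L)
    {K B : Finset V} (hK : K ∈ L) (hB : ∀ u ∈ B, ∀ v ∈ B, u ≠ v → G.Adj u v) {u v : V}
    (huv : u ≠ v) (h1 : u ∈ K) (h2 : v ∈ K) (h3 : u ∈ B) (h4 : v ∈ B) : B ⊆ K := fun w hw => by
  by_cases a : u = w
  · exact a ▸ h1
  by_cases b : v = w
  · exact b ▸ h2
  exact h.out K hK u h1 v h2 huv w (hB u h3 w hw a) (hB v h4 w hw b)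

omit [DecidableEq V] in
theorem Geo.lin {G : SimpleGraph V} {U : Finset V} {L : Finset (Finset V)} (h : Geo G U L)
    {K K' : Finset V} (hK : K ∈ L) (hK' : K' ∈ L) {u v : V} (huv : u ≠ v) (h1 : u ∈ K)
    (h2 : v ∈ K) (h3 : u ∈ K') (h4 : v ∈ K') : K = K' :=
  (h.sub_of hK' (h.cl K hK) huv h3 h4 h1 h2).antisymm (h.sub_of hK (h.cl K' hK') huv h1 h2 h3 h4)

omit [DecidableEq V] in
theorem diamond [Finite V] {G : SimpleGraph V} (hG : CliquePartitioned G) {u v w x : V}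
    (h1 : G.Adj u v) (h2 : G.Adj u w) (h3 : G.Adj v w) (h4 : G.Adj u x) (h5 : G.Adj v x)
    (h6 : w ≠ x) : G.Adj w x := by
  have key : ∀ y, G.Adj u y → G.Adj v y → ∃ s, Maximal G.IsClique s ∧ u ∈ s ∧ v ∈ s ∧ y ∈ s := by
    intro y a b
    have hc : G.IsClique {u, v, y} := by
      rintro _ (rfl | rfl | rfl) _ (rfl | rfl | rfl) h <;>
        first | exact absurd rfl h | assumption | (apply SimpleGraph.Adj.symm; assumption)
    obtain ⟨s, hs, hm⟩ := Finite.exists_le_maximal hc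
    exact ⟨s, hm, hs (by simp), hs (by simp), hs (by simp)⟩
  obtain ⟨s, a1, a2, a3, a4⟩ := key w h2 h3
  obtain ⟨t, b1, b2, b3, b4⟩ := key x h4 h5
  by_cases h : s = t
  · exact b1.prop (h ▸ a4) b4 h6
  · exact absurd (hG s t a1 b1 h ⟨a2, b2⟩ ⟨a3, b3⟩) h1.ne

theorem exists_geo [Finite V] {G : SimpleGraph V} (hG : CliquePartitioned G) (U : Finset V) :
    ∃ L, Geo (res G U) U L := by
  classical
  refine ⟨U.powerset.filter fun K => 2 ≤ K.card ∧
    (∀ u ∈ K, ∀ v ∈ K, u ≠ v → (res G U).Adj u v) ∧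
    ∀ u ∈ K, ∀ v ∈ K, u ≠ v → ∀ w, (res G U).Adj u w → (res G U).Adj v w → w ∈ K,
    fun K h => mem_powerset.1 (mem_filter.1 h).1, fun K h => (mem_filter.1 h).2.1,
    fun K h => (mem_filter.1 h).2.2.1, fun u v h => ?_, fun K h => (mem_filter.1 h).2.2.2⟩
  obtain ⟨h, hu, hv⟩ := h
  let K := U.filter fun w => (w = u ∨ G.Adj u w) ∧ (w = v ∨ G.Adj v w)
  have hu' : u ∈ K := mem_filter.2 ⟨hu, Or.inl rfl, Or.inr h.symm⟩
  have hv' : v ∈ K := mem_filter.2 ⟨hv, Or.inr h, Or.inl rfl⟩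
  have hc : ∀ a ∈ K, ∀ b ∈ K, a ≠ b → G.Adj a b := by
    intro a ha b hb hab
    obtain ⟨-, rfl | a1, a2⟩ := mem_filter.1 ha
    · exact (mem_filter.1 hb).2.1.resolve_left hab.symm
    rcases a2 with rfl | a2
    · exact (mem_filter.1 hb).2.2.resolve_left hab.symm
    obtain ⟨-, rfl | b1, rfl | b2⟩ := mem_filter.1 hb
    · exact a1.symm
    · exact a1.symm
    · exact a2.symm
    · exact diamond hG h a1 a2 b1 b2 hab
  refine ⟨K, mem_filter.2 ⟨mem_powerset.2 (filter_subset _ _), one_lt_card.2 ⟨u, hu', v, hv', h.ne⟩,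
    fun a ha b hb hab => ⟨hc a ha b hb hab, (mem_filter.1 ha).1, (mem_filter.1 hb).1⟩,
    fun a ha b hb hab w h1 h2 => ?_⟩, hu', hv'⟩
  have key : ∀ c ∈ K, w = c ∨ G.Adj c w := fun c hc' => by
    by_cases a1 : a = c
    · exact Or.inr (a1 ▸ h1.1)
    by_cases a2 : b = c
    · exact Or.inr (a2 ▸ h2.1)
    by_cases a3 : w = c
    · exact Or.inl a3
    exact Or.inr (diamond hG (hc a ha b hb hab) (hc a ha c hc' a1) (hc b hb c hc' a2) h1.1 h2.1
      (Ne.symm a3))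
  exact mem_filter.2 ⟨h1.2.2, key u hu', key v hv'⟩

theorem split {ι : Type} (J : Finset ι) (B : ι → Finset V) (K : Finset V) (hK : 2 ≤ K.card)
    (h2 : ∀ i ∈ J, 2 ≤ (B i).card) (hs : ∀ i ∈ J, B i ⊂ K)
    (hc : ∀ u ∈ K, ∀ v ∈ K, u ≠ v → ∃ i ∈ J, u ∈ B i ∧ v ∈ B i) :
    fw K.card ≤ ∑ i ∈ J, (2 / 3 * ((B i).card : ℝ) - 1) := by
  classical
  have a1 : K.card * K.card ≤ ∑ i ∈ J, ((B i).card * (B i).card - (B i).card) + K.card := by
    have : K.offDiag ⊆ J.biUnion fun i => (B i).offDiag := fun p hp => by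
      obtain ⟨b1, b2, b3⟩ := mem_offDiag.1 hp
      obtain ⟨i, c1, c2, c3⟩ := hc _ b1 _ b2 b3
      exact mem_biUnion.2 ⟨i, c1, mem_offDiag.2 ⟨c2, c3, b3⟩⟩
    have := (card_le_card this).trans card_biUnion_le
    simp only [offDiag_card] at this
    omega
  have a2 : ∑ _x ∈ K, 2 ≤ ∑ i ∈ J, (B i).card := by
    refine le_trans (sum_le_sum fun x hx => ?_) ((sum_card_bipartiteAbove_eq_sum_card_bipartiteBelow
      (fun (x : V) (i : ι) => x ∈ B i) (s := K) (t := J)).trans_le (sum_le_sum fun i _ =>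
        card_le_card fun x hx => (mem_filter.1 hx).2))
    obtain ⟨y, b1, b2⟩ := exists_mem_ne hK x
    obtain ⟨i, c1, c2, -⟩ := hc x hx y b1 b2.symm
    obtain ⟨z, d1, d2⟩ := exists_of_ssubset (hs i c1)
    obtain ⟨j, e1, e2, e3⟩ := hc x hx z d1 fun h => d2 (h ▸ c2)
    exact one_lt_card.2 ⟨i, mem_filter.2 ⟨c1, c2⟩, j, mem_filter.2 ⟨e1, e2⟩, fun h => d2 (h ▸ e3)⟩
  rw [sum_const, smul_eq_mul] at a2
  obtain ⟨i, hi⟩ : J.Nonempty := nonempty_iff_ne_empty.2 fun h => by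
    rw [h, sum_empty] at a2
    omega
  have a3 : 3 ≤ K.card := (h2 i hi).trans_lt (card_lt_card (hs i hi))
  have a4 : (K.card : ℝ) * 2 ≤ ∑ i ∈ J, ((B i).card : ℝ) := by exact_mod_cast a2
  have a5 : (K.card : ℝ) * K.card ≤ ∑ i ∈ J, (((B i).card : ℝ) * (B i).card - (B i).card) +
      K.card := by
    refine le_of_le_of_eq (Nat.cast_le.2 a1 |>.trans_eq' (Nat.cast_mul _ _)) ?_
    rw [Nat.cast_add, Nat.cast_sum]
    exact congrArg (· + _) (sum_congr rfl fun i _ => by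
      rw [Nat.cast_sub (Nat.le_mul_self _), Nat.cast_mul])
  have a6 : ∑ i ∈ J, ((B i).card : ℝ) / 6 ≤ ∑ i ∈ J, (2 / 3 * ((B i).card : ℝ) - 1) :=
    sum_le_sum fun i hi => by
      have : (2 : ℝ) ≤ (B i).card := by exact_mod_cast h2 i hi
      linarith
  have a7 : ∑ i ∈ J, (((K.card : ℝ) - 4) / 3 * (B i).card +
      (((B i).card : ℝ) * (B i).card - (B i).card)) ≤
      ∑ i ∈ J, 2 * ((K.card : ℝ) - 1) * (2 / 3 * ((B i).card : ℝ) - 1) :=
    sum_le_sum fun i hi => by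
      have b1 : (2 : ℝ) ≤ (B i).card := by exact_mod_cast h2 i hi
      have b2 : ((B i).card : ℝ) + 1 ≤ K.card := by exact_mod_cast card_lt_card (hs i hi)
      nlinarith
  rw [← sum_div] at a6
  rw [sum_add_distrib, ← mul_sum, ← mul_sum] at a7
  rcases a3.eq_or_lt with h | h
  · rw [← h] at a4 ⊢
    refine max_le ?_ ?_ <;> push_cast at a4 ⊢ <;> linarith
  · have b1 : (4 : ℝ) ≤ K.card := by exact_mod_cast h
    have b2 := mul_le_mul_of_nonneg_left a4 (show 0 ≤ ((K.card : ℝ) - 4) / 3 by linarith)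
    refine max_le ?_ ?_ <;> refine le_of_mul_le_mul_left ?_ (show 0 < 2 * ((K.card : ℝ) - 1) by
      linarith) <;> nlinarith

omit [DecidableEq V] in
theorem exists_hyper [Finite V] (G : SimpleGraph V) : ∃ (ι : Type) (_ : Finite ι) (E : ι → Set V),
    HasAdjacencyGraph E G ∧ genus (incidenceGraph E) = reducedGenus G := by
  classical
  refine Nat.sInf_mem (s := {g : ℕ | ∃ (ι : Type) (_ : Finite ι) (E : ι → Set V),
    HasAdjacencyGraph E G ∧ genus (incidenceGraph E) = g})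
    ⟨_, G.edgeSet, inferInstance, fun e => {v | v ∈ e.1}, fun u v huv => ?_, rfl⟩
  split_ifs with h
  · rw [Nat.card_eq_one_iff_exists]
    exact ⟨⟨⟨s(u, v), h⟩, by simp⟩, fun e =>
      Subtype.ext (Subtype.ext ((Sym2.mem_and_mem_iff huv).1 e.2))⟩
  · rw [Nat.card_eq_zero]
    refine Or.inl ⟨fun e => h ?_⟩
    have := e.1.2
    rwa [(Sym2.mem_and_mem_iff huv).1 e.2] at this

/-- The Euler bound: the weights of the cliques inside `U` add up to at most `|U| + 2 g`. -/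
theorem geo_euler [Finite V] {G : SimpleGraph V} {U : Finset V} {L : Finset (Finset V)}
    (h : Geo (res G U) U L) : ∑ K ∈ L, fw K.card ≤ U.card + 2 * (reducedGenus G : ℝ) := by
  classical
  obtain ⟨ι, _, E, hE, hg⟩ := exists_hyper G
  have := Fintype.ofFinite ι
  have h1 : ∀ {u v i}, u ≠ v → u ∈ E i → v ∈ E i → G.Adj u v := fun {u v i} a b c => by
    by_contra hn
    have := hE u v a
    rw [if_neg hn, Nat.card_eq_zero] at this
    exact this.elim (fun h => h.false ⟨i, b, c⟩) fun h => h.false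
  have h2 : ∀ {u v i j}, u ≠ v → u ∈ E i → v ∈ E i → u ∈ E j → v ∈ E j → i = j :=
    fun {u v i j} a b c d e => by
      have := hE u v a
      rw [if_pos (h1 a b c), Nat.card_eq_one_iff_unique] at this
      exact congrArg Subtype.val (this.1.elim ⟨i, b, c⟩ ⟨j, d, e⟩)
  have h3 : ∀ {u v}, G.Adj u v → ∃ i, u ∈ E i ∧ v ∈ E i := fun {u v} a => by
    have := hE u v a.ne
    rw [if_pos a, Nat.card_eq_one_iff_unique] at this
    obtain ⟨i, hi⟩ := this.2
    exact ⟨i, hi⟩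
  let B : ι → Finset V := fun i => U.filter (· ∈ E i)
  have hB : ∀ i, ∀ u ∈ B i, ∀ v ∈ B i, u ≠ v → (res G U).Adj u v := fun i u a v b c =>
    ⟨h1 c (mem_filter.1 a).2 (mem_filter.1 b).2, (mem_filter.1 a).1, (mem_filter.1 b).1⟩
  let J := univ.filter fun i => 2 ≤ (B i).card
  let S := (U ×ˢ J).filter fun p => p.1 ∈ E p.2
  let o : ι → ℝ := fun i => if B i ∈ L then 1 / 8 else 1 / 6
  have ho : ∀ i, 1 / 8 ≤ o i ∧ o i ≤ 1 / 6 := fun i => by
    simp only [o]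
    split_ifs <;> norm_num
  have hS : ∀ {v i}, (v, i) ∈ S → v ∈ B i := fun a =>
    mem_filter.2 ⟨(mem_product.1 (mem_filter.1 a).1).1, (mem_filter.1 a).2⟩
  have hsum : ∀ F : ι → ℝ, ∑ p ∈ S, F p.2 = ∑ i ∈ J, (B i).card * F i := fun F => by
    rw [sum_filter, sum_product_right]
    refine sum_congr rfl fun i _ => ?_
    dsimp only
    rw [← sum_filter, sum_const, nsmul_eq_mul]
  have key := euler E S (fun p a => (mem_filter.1 a).2) (fun p => o p.2)
    (fun p => by linarith [ho p.2]) ?_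
  · have a1 : ((S.image Prod.fst).card : ℝ) ≤ U.card := Nat.cast_le.2 (card_le_card fun v a => by
      obtain ⟨p, b, rfl⟩ := mem_image.1 a
      exact (mem_product.1 (mem_filter.1 b).1).1)
    have a2 : ((S.image Prod.snd).card : ℝ) ≤ J.card := Nat.cast_le.2 (card_le_card fun v a => by
      obtain ⟨p, b, rfl⟩ := mem_image.1 a
      exact (mem_product.1 (mem_filter.1 b).1).2)
    have a3 := hsum fun _ => 1
    let c : ι → ℝ := fun i => (B i).card * (1 - 2 * o i) - 1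
    have a4 : ∑ i ∈ J, c i ≤ U.card + 2 * (reducedGenus G : ℝ) := by
      simp only [c, mul_sub, sum_sub_distrib, mul_left_comm _ (2 : ℝ), ← mul_sum]
      rw [hsum o, hg] at key
      rw [sum_const, nsmul_eq_mul, mul_one] at a3 ⊢
      linarith
    have a5 : ∀ i ∈ J, 0 ≤ c i := fun i hi => by
      have : (2 : ℝ) ≤ (B i).card := by exact_mod_cast (mem_filter.1 hi).2
      simp only [c]
      nlinarith [ho i]
    refine le_trans ?_ a4
    calc _ ≤ ∑ K ∈ L, ∑ i ∈ J with B i ⊆ K, c i := sum_le_sum fun K hK => ?_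
      _ = ∑ i ∈ J, ∑ K ∈ L with B i ⊆ K, c i := by
        simp only [sum_filter]
        exact sum_comm
      _ ≤ _ := sum_le_sum fun i hi => by
        rw [sum_const, nsmul_eq_mul]
        refine mul_le_of_le_one_left (a5 i hi) (Nat.cast_le_one.2 (card_le_one.2 fun K a K' b => ?_))
        obtain ⟨u, hu, v, hv, huv⟩ := one_lt_card.1 (mem_filter.1 hi).2
        exact h.lin (mem_filter.1 a).1 (mem_filter.1 b).1 huv ((mem_filter.1 a).2 hu)
          ((mem_filter.1 a).2 hv) ((mem_filter.1 b).2 hu) ((mem_filter.1 b).2 hv)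
    have hK2 := h.two K hK
    by_cases hf : ∃ i, B i = K
    · obtain ⟨i, rfl⟩ := hf
      refine le_trans ?_ (single_le_sum (fun j hj => a5 j (mem_filter.1 hj).1)
        (mem_filter.2 ⟨mem_filter.2 ⟨mem_univ i, hK2⟩, subset_rfl⟩))
      have : (2 : ℝ) ≤ (B i).card := by exact_mod_cast hK2
      simp only [c, o, if_pos hK]
      exact max_le (by linarith) (by linarith)
    · refine (split (J.filter fun i => B i ⊆ K) B K hK2 (fun i hi => (mem_filter.1 (mem_filter.1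
        hi).1).2) (fun i hi => (mem_filter.1 hi).2.ssubset_of_ne fun e => hf ⟨i, e⟩)
        fun u hu v hv huv => ?_).trans_eq (sum_congr rfl fun i hi => ?_)
      · obtain ⟨i, b1, b2⟩ := h3 (h.cl K hK u hu v hv huv).1
        have b3 : u ∈ B i := mem_filter.2 ⟨h.sub K hK hu, b1⟩
        have b4 : v ∈ B i := mem_filter.2 ⟨h.sub K hK hv, b2⟩
        exact ⟨i, mem_filter.2 ⟨mem_filter.2 ⟨mem_univ _, one_lt_card.2 ⟨u, b3, v, b4, huv⟩⟩,
          h.sub_of hK (hB i) huv hu hv b3 b4⟩, b3, b4⟩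
      · obtain ⟨b1, b2⟩ := mem_filter.1 hi
        obtain ⟨u, hu, v, hv, huv⟩ := one_lt_card.1 (mem_filter.1 b1).2
        have : B i ∉ L := fun b3 => hf ⟨i, h.lin b3 hK huv hu hv (b2 hu) (b2 hv)⟩
        simp only [c, o, if_neg this]
        ring
  · rintro T hT ⟨⟨v0, i0⟩, e0⟩ hv hi
    have m : ∀ {v i}, (v, i) ∈ T → v ∈ E i := fun a => (mem_filter.1 (hT a)).2
    have hv' : ∀ {v i}, (v, i) ∈ T → ∃ j, j ≠ i ∧ (v, j) ∈ T := fun a => by
      obtain ⟨⟨_, j⟩, b, c, rfl⟩ := hv _ a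
      exact ⟨j, fun e => c (e ▸ rfl), b⟩
    have hi' : ∀ {v i}, (v, i) ∈ T → ∃ w, w ≠ v ∧ (w, i) ∈ T := fun a => by
      obtain ⟨⟨w, _⟩, b, c, rfl⟩ := hi _ a
      exact ⟨w, fun e => c (e ▸ rfl), b⟩
    have fin : ∀ (T' : Finset (V × ι)) (x : ℝ), T' ⊆ T → (∀ p ∈ T', x ≤ o p.2) →
        T'.card • x ≤ ∑ p ∈ T, o p.2 := fun T' x a b => (card_nsmul_le_sum _ _ _ b).trans
      (sum_le_sum_of_subset_of_nonneg a fun p _ _ => by linarith [ho p.2])
    obtain ⟨v1, n1, e1⟩ := hi' e0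
    obtain ⟨i1, n2, e2⟩ := hv' e0
    obtain ⟨i2, n3, e3⟩ := hv' e1
    obtain ⟨v2, n4, e4⟩ := hi' e2
    obtain ⟨v3, n5, e5⟩ := hi' e3
    have n6 : v2 ≠ v1 := fun e => n2 (h2 n1 (e ▸ m e4) (m e2) (m e1) (m e0))
    have n7 : v3 ≠ v0 := fun e => n3 (h2 n1 (m e3) (e ▸ m e5) (m e1) (m e0))
    by_cases n8 : v2 = v3
    · subst n8
      have n9 : i1 ≠ i2 := fun e => n2 (h2 n1 (e ▸ m e3) (m e2) (m e1) (m e0))
      have tri : ∀ {a b c i j l}, (a, i) ∈ T → (b, i) ∈ T → (a, j) ∈ T → (c, j) ∈ T → (b, l) ∈ T →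
          (c, l) ∈ T → a ≠ b → a ≠ c → b ≠ c → i ≠ j → 1 / 6 ≤ o i :=
        fun {a b c i j l} a1 a2 a3 a4 a5 a6 b1 b2 b3 b4 => by
          have : B i ∉ L := fun hL => b4 (h2 b2 (m a1) (mem_filter.1 (h.out _ hL a (hS (hT a1)) b
            (hS (hT a2)) b1 c (hB j a (hS (hT a3)) c (hS (hT a4)) b2)
            (hB l b (hS (hT a5)) c (hS (hT a6)) b3))).2 (m a3) (m a4))
          simp only [o, if_neg this, le_refl]
      have t0 := tri e0 e1 e2 e4 e3 e5 n1.symm n4.symm n6.symm n2.symm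
      have t1 := tri e2 e4 e0 e1 e5 e3 n4.symm n1.symm n6 n2
      have t2 := tri e3 e5 e1 e0 e4 e2 n6.symm n1 n4 n3
      refine le_of_eq_of_le ?_ (fin {(v0, i0), (v1, i0), (v0, i1), (v2, i1), (v1, i2), (v2, i2)}
        (1 / 6) (by simp [insert_subset_iff, *]) (by simp [-one_div, t0, t1, t2]))
      simp [n1.symm, n2.symm, n3.symm, n4.symm, n6.symm, n9]
    · obtain ⟨i3, n9, e6⟩ := hv' e4
      obtain ⟨i4, n10, e7⟩ := hv' e5
      refine le_of_eq_of_le ?_ (fin {(v0, i0), (v0, i1), (v1, i0), (v1, i2), (v2, i1), (v2, i3),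
        (v3, i2), (v3, i4)} (1 / 8) (by simp [insert_subset_iff, *]) fun p _ => (ho _).1)
      simp [n1.symm, n2.symm, n3.symm, n4.symm, n5.symm, n6.symm, n7.symm, n8, n9.symm, n10.symm]

omit [DecidableEq V] in
theorem Geo.le_cliqueNum [Finite V] {G : SimpleGraph V} {U : Finset V} {L : Finset (Finset V)}
    (h : Geo (res G U) U L) {K : Finset V} (hK : K ∈ L) : K.card ≤ G.cliqueNum :=
  SimpleGraph.IsClique.card_le_cliqueNum (tc := fun u a v b c => (h.cl K hK u a v b c).1)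

end Pool.Agent.P.MP_1fec7a_co.K68
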