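import Pool.Agent.P.MP_1fec7a_co.K68.Geo

/-! Critical graphs: degrees, weights and the bound on the number of incidences. -/

namespace Pool.Agent.P.MP_1fec7a_co.K68

open Finset Function
open scoped Classical

variable {V : Type} {k : ℕ} {G : SimpleGraph V} {U : Finset V} {L : Finset (Finset V)}

/-- The colouring `c` is proper away from `x`. -/
def Off (G : SimpleGraph V) (x : V) (c : V → Fin k) : Prop :=
  ∀ u v, G.Adj u v → u ≠ x → v ≠ x → c u ≠ c v

/-- A vertex critical diamond free graph with cliques of at most `k` vertices. -/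
structure Crit (k : ℕ) (G : SimpleGraph V) (U : Finset V) (L : Finset (Finset V)) : Prop
    extends Geo G U L where
  le : ∀ K ∈ L, K.card ≤ k
  ncol : ∀ c : V → Fin k, ∃ u v, G.Adj u v ∧ c u = c v
  crit : ∀ x ∈ U, ∃ c : V → Fin k, Off G x c

theorem exists_crit [Fintype V] (hG : CliquePartitioned G) (hk : G.cliqueNum ≤ k)
    (hc : ¬ G.Colorable k) : ∃ U L, Crit k (res G U) U L := by
  let P : Finset V → Prop := fun U => ∀ c : V → Fin k, ∃ u v, (res G U).Adj u v ∧ c u = c v
  have hP : P univ := fun c => by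
    by_contra! h
    exact hc ⟨SimpleGraph.Coloring.mk c fun {u v} a => h u v ⟨a, mem_univ _, mem_univ _⟩⟩
  obtain ⟨U, h1, h2⟩ := exists_min_image (univ.filter P) card ⟨univ, mem_filter.2 ⟨mem_univ _, hP⟩⟩
  obtain ⟨L, hL⟩ := exists_geo hG U
  refine ⟨U, L, hL, fun K hK => (hL.le_cliqueNum hK).trans hk, (mem_filter.1 h1).2, fun x hx => ?_⟩
  by_contra! h
  refine absurd (h2 (U.erase x) (mem_filter.2 ⟨mem_univ _, fun c => ?_⟩))
    (not_le.2 (card_erase_lt_of_mem hx))
  have := h c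
  simp only [Off, not_forall, not_not] at this
  obtain ⟨u, v, a, b, d, e⟩ := this
  exact ⟨u, v, ⟨a.1, mem_erase.2 ⟨b, a.2.1⟩, mem_erase.2 ⟨d, a.2.2⟩⟩, e⟩

theorem Off.move {x y : V} {c : V → Fin k} {β : Fin k} (hc : Off G x c)
    (h : ∀ v, G.Adj x v → v ≠ y → c v ≠ β) : Off G y (update c x β) := by
  intro u v a b d
  by_cases e : u = x
  · subst e
    rw [update_self, update_of_ne a.ne']
    exact (h v a d).symm
  by_cases f : v = x
  · subst f
    rw [update_self, update_of_ne e]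
    exact h u a.symm b
  rw [update_of_ne e, update_of_ne f]
  exact hc u v a e f

theorem Crit.seen (h : Crit k G U L) {x : V} {c : V → Fin k} (hc : Off G x c) (β : Fin k) :
    ∃ v, G.Adj x v ∧ c v = β := by
  by_contra! hn
  obtain ⟨u, v, a, b⟩ := h.ncol (update c x β)
  by_cases e : u = x
  · subst e
    rw [update_self, update_of_ne a.ne'] at b
    exact hn v a b.symm
  by_cases f : v = x
  · subst f
    rw [update_self, update_of_ne e] at b
    exact hn u a.symm b
  rw [update_of_ne e, update_of_ne f] at b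
  exact hc u v a e f b

/-- The cliques through a vertex. -/
noncomputable def pts (L : Finset (Finset V)) (z : V) : Finset (Finset V) := L.filter (z ∈ ·)

theorem mem_pts {K : Finset V} {z : V} : K ∈ pts L z ↔ K ∈ L ∧ z ∈ K := mem_filter

/-- The neighbours of `y` outside `K`. -/
noncomputable def nbO (G : SimpleGraph V) (U K : Finset V) (y : V) : Finset V :=
  U.filter fun z => G.Adj y z ∧ z ∉ K

theorem Geo.mem_O (h : Geo G U L) {K : Finset V} {y z : V} :
    z ∈ nbO G U K y ↔ G.Adj y z ∧ z ∉ K := by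
  refine mem_filter.trans (and_iff_right_of_imp fun a => ?_)
  obtain ⟨K', b, -, d⟩ := h.cov _ _ a.1
  exact h.sub _ b d

theorem Geo.O_le (h : Geo G U L) (K : Finset V) (y : V) :
    (nbO G U K y).card ≤ ∑ K' ∈ (pts L y).erase K, (K'.card - 1) := by
  refine (card_le_card (t := ((pts L y).erase K).biUnion fun K' => K'.erase y) fun z hz => ?_).trans
    (card_biUnion_le.trans_eq (sum_congr rfl fun K' a =>
      card_erase_of_mem (mem_pts.1 (mem_erase.1 a).2).2))
  obtain ⟨a, b⟩ := h.mem_O.1 hz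
  obtain ⟨K', d, e, f⟩ := h.cov _ _ a
  exact mem_biUnion.2 ⟨K', mem_erase.2 ⟨fun g => b (g ▸ f), mem_pts.2 ⟨d, e⟩⟩,
    mem_erase.2 ⟨a.ne', f⟩⟩

theorem Crit.deg (h : Crit k G U L) {z : V} (hz : z ∈ U) (K : Finset V) :
    k ≤ (K.erase z).card + (nbO G U K z).card := by
  obtain ⟨c, hc⟩ := h.crit z hz
  refine le_trans ?_ ((card_image_le (f := c)).trans (card_union_le _ _))
  refine (Fintype.card_fin k).ge.trans (card_le_card fun β _ => ?_)
  obtain ⟨v, a, b⟩ := h.seen hc β
  refine mem_image.2 ⟨v, mem_union.2 ?_, b⟩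
  by_cases e : v ∈ K
  · exact Or.inl (mem_erase.2 ⟨a.ne', e⟩)
  · exact Or.inr (h.mem_O.2 ⟨a, e⟩)

theorem Crit.deg1 (h : Crit k G U L) {z : V} {K : Finset V} (hK : K ∈ L) (hz : z ∈ K) :
    k + 1 ≤ K.card + (nbO G U K z).card := by
  have := h.deg (h.sub K hK hz) K
  have := card_erase_add_one hz
  omega

theorem Crit.deg0 (h : Crit k G U L) {z : V} (hz : z ∈ U) :
    k ≤ ∑ K ∈ pts L z, (K.card - 1) :=
  ((h.deg hz ∅).trans_eq (by simp)).trans ((h.O_le ∅ z).trans
    (sum_le_sum_of_subset (erase_subset _ _)))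

theorem Geo.sum_O (h : Geo G U L) {K : Finset V} (hK : K ∈ L) (F : V → ℝ) (hF : ∀ z, 0 ≤ F z) :
    ∑ y ∈ K, ∑ z ∈ nbO G U K y, F z ≤ ∑ z ∈ U \ K, F z := by
  rw [← sum_biUnion]
  · refine sum_le_sum_of_subset_of_nonneg (fun z hz => ?_) fun z _ _ => hF z
    obtain ⟨y, -, a⟩ := mem_biUnion.1 hz
    exact mem_sdiff.2 ⟨(mem_filter.1 a).1, (mem_filter.1 a).2.2⟩
  · intro y a y' b d
    refine disjoint_left.2 fun z e f => ?_
    exact (h.mem_O.1 e).2 (h.out K hK y a y' b d z (h.mem_O.1 e).1 (h.mem_O.1 f).1)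

theorem Geo.sum_pts (h : Geo G U L) (T : Finset V) (β : Finset V → ℝ) :
    ∑ z ∈ U \ T, ∑ K ∈ pts L z, β K = ∑ K ∈ L, β K * (K \ T).card := by
  simp only [pts, sum_filter]
  rw [sum_comm]
  refine sum_congr rfl fun K hK => ?_
  rw [← sum_filter, sum_const, nsmul_eq_mul, mul_comm]
  congr 3
  ext z
  simp only [mem_filter, mem_sdiff]
  exact ⟨fun a => ⟨a.2, a.1.2⟩, fun a => ⟨⟨h.sub K hK a.1, a.2⟩, a.1⟩⟩

theorem Geo.wt (h : Geo G U L) (T : Finset V) (β : Finset V → ℝ)
    (hβ : ∀ K ∈ L, β K * (K \ T).card ≤ fw K.card) :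
    ∑ z ∈ U \ T, (∑ K ∈ pts L z, β K - 1) - T.card ≤ ∑ K ∈ L, fw K.card - U.card := by
  rw [sum_sub_distrib, h.sum_pts, sum_const, nsmul_eq_mul, mul_one]
  have a : (U.card : ℝ) ≤ (U \ T).card + T.card := by exact_mod_cast card_le_card_sdiff_add_card
  linarith [sum_le_sum hβ]

theorem Crit.leaf (h : Crit k G U L) (p : V → Finset V) (π : V → V) (X : Finset V)
    (hX : ∀ z ∈ X, π z ∈ X ∧ π (π z) = z ∧ p z ∈ L ∧ z ∈ p z ∧ π z ∉ p z ∧
      ∀ v, G.Adj z v → v ∈ p z ∨ v = π z) (hne : X.Nonempty) :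
    ∃ z ∈ X, ∀ z' ∈ X, p z' = p z → z' = z := by
  by_contra! hn
  choose! nx n1 n2 n3 using hn
  obtain ⟨z0, hz0⟩ := hne
  let f : ℕ → V := fun i => (fun z => π (nx z))^[i] z0
  have fs : ∀ i, f (i + 1) = π (nx (f i)) := fun i => iterate_succ_apply' _ _ _
  have fX : ∀ i, f i ∈ X := fun i => by
    induction i with
    | zero => exact hz0
    | succ i ih => exact fs i ▸ (hX _ (n1 _ ih)).1
  obtain ⟨c0, hc0⟩ := h.crit z0 (h.sub _ (hX _ hz0).2.2.1 (hX _ hz0).2.2.2.1)
  obtain ⟨α, hα⟩ : ∃ α, α ∉ ((p z0).erase z0).image c0 := by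
    refine (exists_mem_notMem_of_card_lt_card (t := univ)
      (card_image_le.trans_lt ?_)).imp fun _ a => a.2
    have := h.le _ (hX _ hz0).2.2.1
    have := card_erase_add_one (hX _ hz0).2.2.2.1
    rw [card_univ, Fintype.card_fin]
    omega
  have par : ∀ z ∈ X, ∀ c : V → Fin k, Off G z c → (∀ u ∈ p z, u ≠ z → c u ≠ α) → c (π z) = α :=
    fun z hz c a b => by
      obtain ⟨v, d, e⟩ := h.seen a α
      rcases (hX z hz).2.2.2.2.2 v d with g | g
      · exact absurd e (b v g d.ne')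
      · exact g ▸ e
  have inv : ∀ i, ∃ c : V → Fin k, Off G (f i) c ∧ (∀ u ∈ p (f i), u ≠ f i → c u ≠ α) ∧
      ∀ j < i, c (nx (f j)) = α ∧ nx (f j) ≠ f i := by
    intro i
    induction i with
    | zero => exact ⟨c0, hc0, fun u a b d => hα (mem_image.2 ⟨u, mem_erase.2 ⟨b, a⟩, d⟩), by simp⟩
    | succ i ih =>
      obtain ⟨c, a1, a2, a3⟩ := ih
      obtain ⟨-, -, b3, b4, b5, b6⟩ := hX _ (fX i)
      obtain ⟨e1, e2, -, e4, e5, e6⟩ := hX _ (n1 _ (fX i))
      have e7 := n2 _ (fX i)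
      have e8 := n3 _ (fX i)
      obtain ⟨-, -, g3, g4, g5, -⟩ := hX _ e1
      rw [fs]
      set e := nx (f i)
      rw [e7] at e4 e5 e6
      rw [e2] at g5
      have d1 : Off G e (update c (f i) (c e)) := a1.move fun v x1 x2 => by
        rcases b6 v x1 with x3 | rfl
        · exact a1 v e (h.cl _ b3 v x3 e e4 x2) x1.ne' e8
        · rw [par _ (fX i) c a1 a2]
          exact (a2 e e4 e8).symm
      have d2 : ∀ u ∈ p (f i), u ≠ e → update c (f i) (c e) u ≠ α := fun u x1 x2 => by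
        by_cases x3 : u = f i
        · rw [x3, update_self]
          exact a2 e e4 e8
        · rw [update_of_ne x3]
          exact a2 u x1 x3
      have d3 := par e (n1 _ (fX i)) _ d1 (e7 ▸ d2)
      have d4 : π e ≠ e := fun x => e5 (x.symm ▸ e4)
      refine ⟨update (update c (f i) (c e)) e α, d1.move fun v x1 x2 =>
        d2 v ((e6 v x1).resolve_right x2) x1.ne', fun u x1 x2 => ?_, fun j hj => ?_⟩
      · have x3 : u ≠ e := fun x => g5 (x ▸ x1)
        rw [update_of_ne x3, ← d3]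
        exact d1 u _ (h.cl _ g3 u x1 _ g4 x2) x3 d4
      · rcases (Nat.lt_succ_iff.1 hj).eq_or_lt with rfl | hj
        · exact ⟨update_self .., d4.symm⟩
        refine ⟨?_, fun x => ?_⟩
        · by_cases x : nx (f j) = e
          · rw [x, update_self]
          · rw [update_of_ne x, update_of_ne (a3 j hj).2]
            exact (a3 j hj).1
        · have x1 : f (j + 1) = e := by rw [fs, x, e2]
          rcases (Nat.succ_le_of_lt hj).eq_or_lt with x2 | x2
          · exact e8 (x1.symm.trans (congrArg f x2))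
          · refine a2 _ ?_ (a3 _ x2).2 (a3 _ x2).1
            rw [← e7, ← x1, ← n2 _ (fX _)]
            exact (hX _ (n1 _ (fX _))).2.2.2.1
  have inj : Injective fun i => p (f i) := by
    refine Injective.of_lt_imp_ne fun j i hj x => ?_
    obtain ⟨c, -, a2, a3⟩ := inv i
    refine a2 _ ?_ (a3 j hj).2 (a3 j hj).1
    rw [← x, ← n2 _ (fX _)]
    exact (hX _ (n1 _ (fX _))).2.2.2.1
  exact Set.infinite_of_injective_forall_mem inj (fun i => (hX _ (fX i)).2.2.1) L.finite_toSet

theorem Crit.forest (h : Crit k G U L) (p : V → Finset V) (π : V → V) (X : Finset V)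
    (hX : ∀ z ∈ X, π z ∈ X ∧ π (π z) = z ∧ p z ∈ L ∧ z ∈ p z ∧ π z ∉ p z ∧
      ∀ v, G.Adj z v → v ∈ p z ∨ v = π z) : X.card ≤ 2 * (X.image p).card := by
  induction X using Finset.strongInduction with
  | H X ih =>
  rcases X.eq_empty_or_nonempty with rfl | hne
  · simp
  obtain ⟨z, hz, hu⟩ := h.leaf p π X hX hne
  have a1 := ih ((X.erase z).erase (π z)) ((erase_subset _ _).trans_ssubset (erase_ssubset hz))
    fun y hy => by
      obtain ⟨b1, b2⟩ := mem_erase.1 hy
      obtain ⟨b2, b3⟩ := mem_erase.1 b2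
      refine ⟨mem_erase.2 ⟨fun x => b2 ?_, mem_erase.2 ⟨fun x => b1 ?_, (hX y b3).1⟩⟩, (hX y b3).2⟩
      · rw [← (hX y b3).2.1, x, (hX z hz).2.1]
      · rw [← (hX y b3).2.1, x]
  have a2 : (((X.erase z).erase (π z)).image p).card < (X.image p).card := by
    refine card_lt_card ⟨image_subset_image ((erase_subset _ _).trans (erase_subset _ _)),
      fun x => ?_⟩
    obtain ⟨y, b1, b2⟩ := mem_image.1 (x (mem_image_of_mem p hz))
    obtain ⟨b3, b4⟩ := mem_erase.1 (mem_erase.1 b1).2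
    exact b3 (hu y b4 b2)
  have a3 := card_erase_add_one hz
  have a4 := pred_card_le_card_erase (s := X.erase z) (a := π z)
  omega

theorem fw_div {d : ℕ} (hd : 2 ≤ d) : 1 / 4 ≤ fw d / d ∧ (3 ≤ d → 1 / 3 ≤ fw d / d) ∧
    3 / 4 - 3 / (2 * d) ≤ fw d / d := by
  have a : (2 : ℝ) ≤ d := by exact_mod_cast hd
  have b : ((d : ℝ) - 1) / 2 ≤ fw d := le_max_left _ _
  have c : 3 * ((d : ℝ) - 2) / 4 ≤ fw d := le_max_right _ _
  refine ⟨?_, fun e => ?_, ?_⟩ <;> rw [le_div_iff₀ (by linarith)]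
  · linarith
  · have : (3 : ℝ) ≤ d := by exact_mod_cast e
    linarith
  · refine le_of_eq_of_le ?_ c
    field_simp
    ring

theorem Crit.two_le (h : Crit k G U L) (hk : 0 < k) {z : V} (hz : z ∈ U) :
    2 ≤ (pts L z).card := by
  have a := h.deg0 hz
  by_contra! b
  rcases card_le_one_iff_subset_singleton.1 (Nat.lt_succ_iff.1 b) with ⟨K, d⟩
  rcases subset_singleton_iff.1 d with e | e
  · rw [e, sum_empty] at a
    omega
  · have := h.le K (mem_pts.1 (e ▸ mem_singleton_self K)).1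
    rw [e, sum_singleton] at a
    omega

/-- The number of incidences is bounded by a multiple of the weight. -/
theorem Crit.inc_le (h : Crit k G U L) (hk : 240 ≤ k) :
    ∑ K ∈ L, (K.card : ℝ) ≤ 400 * (∑ K ∈ L, fw K.card - U.card) := by
  let Z : V → Prop := fun z => (pts L z).card = 2 ∧ ∃ q ∈ pts L z, q.card = 2
  have hk' : (240 : ℝ) ≤ k := by exact_mod_cast hk
  have ex : ∀ z, ∃ (p : Finset V) (π : V), z ∈ U → Z z → p ∈ L ∧ z ∈ p ∧ p.card = k ∧
      ({z, π} : Finset V) ∈ L ∧ π ≠ z ∧ pts L z = {p, {z, π}} := fun z => by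
    by_cases a : z ∈ U ∧ Z z
    swap
    · exact ⟨∅, z, fun b c => absurd ⟨b, c⟩ a⟩
    obtain ⟨a, b, q, c, d⟩ := a
    obtain ⟨p, e⟩ := card_eq_one.1 (show ((pts L z).erase q).card = 1 by
      rw [card_erase_of_mem c, b])
    obtain ⟨π, f⟩ := card_eq_one.1 (show (q.erase z).card = 1 by
      rw [card_erase_of_mem (mem_pts.1 c).2, d])
    have g1 := mem_erase.1 (e ▸ mem_singleton_self p)
    have g2 : q = {z, π} := by rw [← insert_erase (mem_pts.1 c).2, f]
    have g3 : pts L z = {p, q} := by rw [← insert_erase c, e, pair_comm]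
    have g4 := h.deg0 a
    have g5 := h.le p (mem_pts.1 g1.2).1
    rw [g3, sum_pair g1.1] at g4
    exact ⟨p, π, fun _ _ => ⟨(mem_pts.1 g1.2).1, (mem_pts.1 g1.2).2, by omega,
      g2 ▸ (mem_pts.1 c).1, (mem_erase.1 (f ▸ mem_singleton_self π)).1, g2 ▸ g3⟩⟩
  choose p π hp using ex
  have hπ : ∀ z ∈ U, Z z → π z ∈ U := fun z a b => h.sub _ (hp z a b).2.2.2.1 (by simp)
  let X := (U.filter Z).filter fun z => Z (π z)
  have a1 : X.card ≤ 2 * (X.image p).card := h.forest p π X fun z hz => by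
    obtain ⟨a, b⟩ := mem_filter.1 hz
    obtain ⟨a, c⟩ := mem_filter.1 a
    obtain ⟨d1, d2, d3, d4, d5, d6⟩ := hp z a c
    obtain ⟨-, -, e3, -, -, e6⟩ := hp _ (hπ z a c) b
    have e7 : π (π z) = z := by
      have : ({z, π z} : Finset V) ∈ pts L (π z) := mem_pts.2 ⟨d4, by simp⟩
      rw [e6, mem_insert, mem_singleton] at this
      rcases this with x | x
      · have := card_le_two (a := z) (b := π z)
        rw [x] at this
        omega
      · have : z ∈ ({π z, π (π z)} : Finset V) := x ▸ mem_insert_self _ _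
        exact ((mem_insert.1 this).elim (fun y => absurd y d5.symm) mem_singleton.1).symm
    refine ⟨mem_filter.2 ⟨mem_filter.2 ⟨hπ z a c, b⟩, e7.symm ▸ c⟩, e7, d1, d2, fun x => ?_,
      fun v x => ?_⟩
    · have := card_le_two (a := z) (b := π z)
      rw [← h.lin d1 d4 d5 x d2 (by simp) (by simp)] at this
      omega
    · obtain ⟨K, y1, y2, y3⟩ := h.cov _ _ x
      have := mem_pts.2 ⟨y1, y2⟩
      rw [d6, mem_insert, mem_singleton] at this
      rcases this with rfl | rfl
      · exact Or.inl y3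
      · exact Or.inr ((mem_insert.1 y3).elim (fun y => absurd y x.ne') mem_singleton.1)
  have a2 : (X.image p).card * k ≤ ∑ K ∈ L, K.card := by
    have : ∀ K ∈ X.image p, K ∈ L ∧ K.card = k := fun K a => by
      obtain ⟨z, b, rfl⟩ := mem_image.1 a
      obtain ⟨b, c⟩ := mem_filter.1 (mem_filter.1 b).1
      exact ⟨(hp z b c).1, (hp z b c).2.2.1⟩
    exact (card_nsmul_le_sum _ _ _ fun K a => (this K a).2.ge).trans
      (sum_le_sum_of_subset fun K a => (this K a).1)
  have a3 : ((U.filter Z).filter fun z => ¬ Z (π z)).card ≤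
      ∑ z ∈ U.filter fun z => ¬ Z z, (pts L z).card := by
    rw [← card_sigma]
    refine card_le_card_of_injOn (fun z => ⟨π z, {z, π z}⟩) (fun z hz => ?_) fun z a z' _ b => ?_
    · obtain ⟨a, b⟩ := mem_filter.1 hz
      obtain ⟨a, c⟩ := mem_filter.1 a
      exact mem_sigma.2 ⟨mem_filter.2 ⟨hπ z a c, b⟩, mem_pts.2 ⟨(hp z a c).2.2.2.1, by simp⟩⟩
    · obtain ⟨a, c⟩ := mem_filter.1 (mem_filter.1 a).1
      obtain ⟨b1, b2⟩ := Sigma.mk.inj_iff.1 b
      have : z ∈ ({z', π z'} : Finset V) := eq_of_heq b2 ▸ mem_insert_self _ _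
      exact (mem_insert.1 this).resolve_right fun y =>
        (hp z a c).2.2.2.2.1 (b1.trans (mem_singleton.1 y).symm)
  have a4 : X.card + _ = _ := card_filter_add_card_filter_not (s := U.filter Z) fun z => Z (π z)
  have a5 := h.sum_pts ∅ fun _ => 1
  have a6 := h.wt ∅ (fun K => fw K.card / K.card) fun K hK => by
    have := h.two K hK
    rw [sdiff_empty, div_mul_cancel₀ _ (by positivity)]
  simp only [sdiff_empty, sum_const, nsmul_eq_mul, mul_one, one_mul, card_empty, Nat.cast_zero,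
    sub_zero] at a5 a6
  rw [← sum_filter_add_sum_filter_not U Z] at a5 a6
  have a7 : ∑ z ∈ U.filter Z, ((pts L z).card : ℝ) = (U.filter Z).card * 2 := by
    rw [← nsmul_eq_mul, ← sum_const]
    exact sum_congr rfl fun z a => by exact_mod_cast (mem_filter.1 a).2.1
  have a8 : (U.filter Z).card • (-(3 / (2 * (k : ℝ)))) ≤
      ∑ z ∈ U.filter Z, (∑ K ∈ pts L z, fw K.card / K.card - 1) :=
    card_nsmul_le_sum _ _ _ fun z a => by
      obtain ⟨d1, -, d3, d4, -, d6⟩ := hp z (mem_filter.1 a).1 (mem_filter.1 a).2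
      have := (fw_div (h.two _ d1)).2.2
      rw [d6, sum_pair fun x => by
        have := card_le_two (a := z) (b := π z)
        rw [← x] at this
        omega]
      rw [d3] at this ⊢
      linarith [(fw_div (h.two _ d4)).1]
  have a9 : ∑ z ∈ U.filter fun z => ¬ Z z, ((pts L z).card : ℝ) / 40 ≤
      ∑ z ∈ U.filter fun z => ¬ Z z, (∑ K ∈ pts L z, fw K.card / K.card - 1) :=
    sum_le_sum fun z a => by
      obtain ⟨a, b⟩ := mem_filter.1 a
      have q4 : ∀ s ⊆ pts L z, (s.card : ℝ) * (1 / 4) ≤ ∑ K ∈ s, fw K.card / K.card := fun s x =>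
        (nsmul_eq_mul _ _).symm.trans_le
          (card_nsmul_le_sum _ _ _ fun K y => (fw_div (h.two K (mem_pts.1 (x y)).1)).1)
      by_cases r5 : 5 ≤ (pts L z).card
      · have : (5 : ℝ) ≤ (pts L z).card := by exact_mod_cast r5
        linarith [q4 _ subset_rfl]
      obtain ⟨K, c1, c2⟩ : ∃ K ∈ pts L z, 60 ≤ K.card := by
        by_contra! x
        have := (h.deg0 a).trans (sum_le_card_nsmul _ _ 59 fun K y => by
          have := x K y
          omega)
        rw [smul_eq_mul] at this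
        omega
      have c3 : 3 / (2 * (K.card : ℝ)) ≤ 1 / 40 := by
        have : (60 : ℝ) ≤ K.card := by exact_mod_cast c2
        rw [div_le_iff₀ (by linarith)]
        linarith
      have c4 := (fw_div (h.two K (mem_pts.1 c1).1)).2.2
      have c5 := card_erase_add_one c1
      rw [← add_sum_erase _ _ c1]
      rcases (h.two_le (by omega) a).eq_or_lt with r | r
      · obtain ⟨q, e⟩ := card_eq_one.1 (show ((pts L z).erase K).card = 1 by omega)
        have g1 := (mem_erase.1 (e ▸ mem_singleton_self q)).2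
        have g2 := h.two q (mem_pts.1 g1).1
        have := (fw_div g2).2.1 (g2.lt_of_ne fun x => b ⟨r.symm, q, g1, x.symm⟩)
        rw [e, sum_singleton, ← r]
        push_cast
        linarith
      · have g1 : (3 : ℝ) ≤ (pts L z).card := by exact_mod_cast r
        have g2 : (((pts L z).erase K).card : ℝ) + 1 = (pts L z).card := by exact_mod_cast c5
        linarith [q4 _ (erase_subset K _)]
  rw [← sum_div] at a9
  rw [nsmul_eq_mul] at a8
  have b1 : ((U.filter Z).card : ℝ) ≤ 2 * (X.image p).card +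
      ∑ z ∈ U.filter fun z => ¬ Z z, ((pts L z).card : ℝ) := by
    exact_mod_cast (by omega : (U.filter Z).card ≤ 2 * (X.image p).card +
      ∑ z ∈ U.filter fun z => ¬ Z z, (pts L z).card)
  have b2 : ((X.image p).card : ℝ) * k ≤ ∑ K ∈ L, (K.card : ℝ) := by exact_mod_cast a2
  have b3 : 3 / (2 * (k : ℝ)) ≤ 1 / 160 := by
    rw [div_le_iff₀ (by linarith)]
    linarith
  have b4 : (0 : ℝ) ≤ (X.image p).card := Nat.cast_nonneg _
  have b5 : (0 : ℝ) ≤ (U.filter Z).card := Nat.cast_nonneg _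
  nlinarith

end Pool.Agent.P.MP_1fec7a_co.K68
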