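import Pool.Agent.P.MP_1fec7a_co.K68.Main

/-! The line graph of the cube with one edge subdivided. -/

namespace Pool.Agent.P.MP_1fec7a_co.K68

open Finset Function

/-- First ends of the thirteen edges. -/
def e0 : Fin 13 → Fin 9 := ![0, 8, 1, 3, 2, 4, 5, 7, 6, 0, 1, 2, 3]

/-- Second ends of the thirteen edges. -/
def e1 : Fin 13 → Fin 9 := ![8, 1, 3, 2, 0, 5, 7, 6, 4, 4, 5, 6, 7]

/-- The stars of the nine vertices. -/
def star (i : Fin 9) : Set (Fin 13) := {v | e0 v = i ∨ e1 v = i}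

instance (i : Fin 9) : DecidablePred (· ∈ star i) := fun v =>
  inferInstanceAs (Decidable (e0 v = i ∨ e1 v = i))

/-- The line graph. -/
def cube : SimpleGraph (Fin 13) where
  Adj u v := u ≠ v ∧ (e0 u = e0 v ∨ e0 u = e1 v ∨ e1 u = e0 v ∨ e1 u = e1 v)
  symm := ⟨by decide⟩
  loopless := ⟨by decide⟩

instance : DecidableRel cube.Adj := fun u v =>
  inferInstanceAs (Decidable (u ≠ v ∧ (e0 u = e0 v ∨ e0 u = e1 v ∨ e1 u = e0 v ∨ e1 u = e1 v)))

theorem cube_cp : CliquePartitioned cube := by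
  have d : ∀ u v w, cube.Adj u v → cube.Adj u w → cube.Adj v w → ∀ x, cube.Adj u x →
      cube.Adj v x → w ≠ x → cube.Adj w x := by decide +kernel
  have key : ∀ s t : Set (Fin 13), Maximal cube.IsClique s → cube.IsClique t → ∀ u v, u ∈ s ∩ t →
      v ∈ s ∩ t → u ≠ v → t ⊆ s := fun s t a b u v hu hv n x hx => by
    refine a.2 (y := insert x s) (a.prop.insert fun w hw m => ?_) (Set.subset_insert _ _)
      (Set.mem_insert _ _)
    by_cases e : u = x
    · exact a.prop (e ▸ hu.1) hw m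
    by_cases f : v = x
    · exact a.prop (f ▸ hv.1) hw m
    by_cases g : u = w
    · exact (b (g ▸ hu.2) hx m.symm).symm
    by_cases h : v = w
    · exact (b (h ▸ hv.2) hx m.symm).symm
    exact d u v x (b hu.2 hv.2 n) (b hu.2 hx e) (b hv.2 hx f) w (a.prop hu.1 hw g)
      (a.prop hv.1 hw h) m
  intro s t a b n u hu v hv
  by_contra m
  exact n ((key t s b a.prop u v hu.symm hv.symm m).antisymm (key s t a b.prop u v hu hv m))

theorem cube_clique : cube.cliqueNum ≤ 3 := by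
  have d : ∀ u v w, cube.Adj u v → cube.Adj u w → cube.Adj v w → ∀ x, cube.Adj u x →
      cube.Adj v x → ¬ cube.Adj w x := by decide +kernel
  obtain ⟨s, hs⟩ := cube.exists_isNClique_cliqueNum
  by_contra! h
  obtain ⟨a, ha, b, hb, c, hc, e, he, n1, n2, n3, n4, n5, n6⟩ := three_lt_card.1 (hs.2 ▸ h)
  exact d a b c (hs.1 ha hb n1) (hs.1 ha hc n2) (hs.1 hb hc n4) e (hs.1 ha he n3) (hs.1 hb he n5)
    (hs.1 hc he n6)

theorem cube_chi : cube.chromaticNumber = (4 : ℕ) := by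
  refine le_antisymm (SimpleGraph.chromaticNumber_le_iff_colorable.2 ⟨SimpleGraph.Coloring.mk
    ![0, 3, 1, 0, 1, 0, 1, 0, 1, 2, 2, 2, 2] (by decide)⟩) ?_
  refine (ENat.add_one_le_iff (m := (3 : ℕ)) (by simp)).2 (not_le.1 fun h => ?_)
  obtain ⟨c⟩ := SimpleGraph.chromaticNumber_le_iff_colorable.1 h
  have d : ∀ p q : Fin 13 × Bool, (if p.2 then e0 p.1 else e1 p.1) =
      (if q.2 then e0 q.1 else e1 q.1) → p = q ∨ cube.Adj p.1 q.1 := by decide +kernel
  have a : ∀ a, (univ.filter fun v => c v = a).card ≤ 4 := fun a => by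
    have := card_le_card_of_injOn (s := (univ.filter fun v => c v = a) ×ˢ univ) (t := univ)
      (fun p : Fin 13 × Bool => if p.2 then e0 p.1 else e1 p.1) (fun _ _ => mem_univ _)
      fun p hp q hq e => (d p q e).resolve_right fun f => c.valid f
        ((mem_filter.1 (mem_product.1 hp).1).2.trans (mem_filter.1 (mem_product.1 hq).1).2.symm)
    simp only [card_product, card_univ, Fintype.card_bool, Fintype.card_fin] at this
    omega
  have := (card_eq_sum_card_fiberwise (f := c) (s := univ) (t := univ) fun _ _ =>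
    mem_univ _).trans_le (sum_le_card_nsmul _ _ 4 fun b _ => a b)
  simp at this

/-- Adjacency in the incidence graph. -/
def adjI : Fin 13 ⊕ Fin 9 → Fin 13 ⊕ Fin 9 → Bool
  | .inl v, .inr i => e0 v = i ∨ e1 v = i
  | .inr i, .inl v => e0 v = i ∨ e1 v = i
  | _, _ => false

theorem adjI_iff (a b : Fin 13 ⊕ Fin 9) : (incidenceGraph star).Adj a b ↔ adjI a b = true := by
  rcases a with a | a <;> rcases b with b | b <;> simp [incidenceGraph, adjI, star]

/-- The rotation of the plane drawing. -/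
def nxt : Fin 13 ⊕ Fin 9 → Fin 13 ⊕ Fin 9 → Fin 13 ⊕ Fin 9
  | .inl v, .inr i => .inr (if e0 v = i then e1 v else e0 v)
  | .inr i, .inl v => .inl (if e0 v = i then ![4, 0, 1, 2, 3, 9, 10, 12, 11, 0, 2, 4, 3] v
      else ![1, 10, 12, 11, 9, 6, 7, 8, 5, 8, 5, 7, 6] v)
  | _, b => b

/-- The faces of the plane drawing. -/
def fc : Fin 13 ⊕ Fin 9 → Fin 13 ⊕ Fin 9 → Fin 6
  | .inl v, .inr i => if e0 v = i then ![0, 0, 0, 0, 0, 1, 2, 3, 4, 1, 2, 4, 3] v
      else ![1, 1, 2, 3, 4, 5, 5, 5, 5, 4, 1, 3, 2] v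
  | .inr i, .inl v => if e0 v = i then ![1, 1, 2, 3, 4, 5, 5, 5, 5, 4, 1, 3, 2] v
      else ![0, 0, 0, 0, 0, 1, 2, 3, 4, 1, 2, 4, 3] v
  | _, _ => 0

/-- The distance from the vertex `0`. -/
def rk : Fin 13 ⊕ Fin 9 → ℕ :=
  Sum.elim ![1, 3, 5, 3, 1, 3, 5, 5, 3, 1, 5, 3, 5] ![0, 4, 2, 4, 2, 4, 4, 6, 2]

theorem cube_genus : reducedGenus cube = 0 := by
  have d1 : ∀ a b, adjI a b = true → adjI a (nxt a b) = true ∧ fc b (nxt b a) = fc a b ∧
      ∀ c, adjI a c = true → (nxt a b = nxt a c → b = c) ∧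
        (c = b ∨ c = nxt a b ∨ c = nxt a (nxt a b)) := by decide +kernel
  have d2 : ∀ f, ∃ a b, adjI a b = true ∧ fc a b = f := by decide +kernel
  let I := incidenceGraph star
  have : Finite I.Dart := Finite.of_injective _ SimpleGraph.Dart.toProd_injective
  let s : I.Dart → I.Dart := fun d =>
    ⟨(d.fst, nxt d.fst d.snd), (adjI_iff _ _).2 (d1 _ _ ((adjI_iff _ _).1 d.adj)).1⟩
  have hs : Injective s := by
    rintro ⟨⟨a, b⟩, h⟩ ⟨⟨a', c⟩, h'⟩ e
    obtain ⟨rfl, f⟩ := Prod.ext_iff.1 (congrArg SimpleGraph.Dart.toProd e)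
    obtain rfl := ((d1 _ _ ((adjI_iff _ _).1 h)).2.2 c ((adjI_iff _ _).1 h')).1 f
    rfl
  let σ : Equiv.Perm I.Dart := Equiv.ofBijective s (Finite.injective_iff_bijective.1 hs)
  refine Nat.sInf_eq_zero.2 (Or.inl ⟨Fin 9, inferInstance, star, fun u v h => ?_,
    Nat.sInf_eq_zero.2 (Or.inl ⟨σ, fun a b => ⟨cyc_inv (t := fun d : I.Dart => d.fst) fun _ => rfl,
      ?_⟩, ?_⟩)⟩)
  · rw [Nat.card_eq_fintype_card]
    revert u v
    simp only [ite_eq_iff, eq_comm (a := Fintype.card _)]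
    decide +kernel
  · obtain ⟨⟨a', c⟩, h'⟩ := b
    obtain ⟨⟨a, b⟩, h⟩ := a
    intro e
    obtain rfl : a = a' := e
    rcases ((d1 _ _ ((adjI_iff _ _).1 h)).2.2 c ((adjI_iff _ _).1 h')).2 with rfl | rfl | rfl
    · exact Equiv.Perm.SameCycle.rfl
    · exact ⟨1, rfl⟩
    · exact ⟨2, rfl⟩
  · have a1 : Nat.card I.ConnectedComponent ≤ 1 := by
      have d : ∀ a : Fin 13 ⊕ Fin 9, a = .inr 0 ∨ ∃ b, adjI a b = true ∧
          rk b <
          rk a := by
        decide +kernel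
      have e : ∀ n, ∀ a : Fin 13 ⊕ Fin 9,
          rk a < n →
          I.Reachable a (.inr 0) := fun n => by
        induction n with
        | zero => simp
        | succ n ih =>
          intro a h
          rcases d a with rfl | ⟨b, f, g⟩
          · rfl
          · exact ((adjI_iff _ _).2 f).reachable.trans (ih b (by omega))
      have : I.Preconnected := fun a b =>
        (e _ a (Nat.lt_succ_self _)).trans (e _ b (Nat.lt_succ_self _)).symm
      have := this.subsingleton_connectedComponent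
      exact Finite.card_le_one_iff_subsingleton.2 this
    have a2 : Nat.card I.edgeSet ≤ 26 := (card_edge_incidence star).trans_eq (by
      rw [Nat.card_eq_fintype_card]
      decide +kernel)
    have a3 : Nat.card (Fin 6) ≤ faceCount I σ := le_trans (Nat.card_le_card_of_surjective
      (Quotient.lift (fun d : I.Dart => fc d.fst d.snd) fun a b h =>
        cyc_inv (t := fun d : I.Dart => fc d.fst d.snd)
          (fun d => (d1 _ _ ((adjI_iff _ _).1 d.adj)).2.1) h) fun f => by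
        obtain ⟨a, b, h, rfl⟩ := d2 f
        exact ⟨⟦⟨(a, b), (adjI_iff _ _).2 h⟩⟧, rfl⟩) (Nat.le_add_right _ _)
    simp only [Nat.card_eq_fintype_card, Fintype.card_fin, Fintype.card_sum] at a3 ⊢
    simp only [← Nat.card_eq_fintype_card, I] at a1 a2 a3 ⊢
    omega

theorem q2range : {p : ℕ × ℕ | ∃ (V : Type) (_ : Fintype V) (G : SimpleGraph V),
      CliquePartitioned G ∧ reducedGenus G = p.1 ∧ G.chromaticNumber = (p.2 : ℕ∞) ∧
        max (heawood p.1 - 1) (G.cliqueNum : ℝ) < (p.2 : ℝ)}.Finite ∧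
    (0, 4) ∈ {p : ℕ × ℕ | ∃ (V : Type) (_ : Fintype V) (G : SimpleGraph V),
      CliquePartitioned G ∧ reducedGenus G = p.1 ∧ G.chromaticNumber = (p.2 : ℕ∞) ∧
        max (heawood p.1 - 1) (G.cliqueNum : ℝ) < (p.2 : ℝ)} := by
  constructor
  · refine ((Set.finite_Iic (10 ^ 24)).prod (Set.finite_Iic (10 ^ 12))).subset ?_
    rintro ⟨g, c⟩ ⟨V, _, G, h1, h2, h3, h4⟩
    obtain ⟨h4, h5⟩ := max_lt_iff.1 h4
    have h6 : c ≤ 10 ^ 12 := not_lt.1 fun h =>
      (h2 ▸ chi_le h1 h3 h (Nat.cast_lt.1 h5)).not_gt h4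
    refine ⟨(not_lt.1 fun h => ?_ : g ≤ 10 ^ 24), h6⟩
    have a1 : (10 : ℝ) ^ 24 ≤ g := by exact_mod_cast h.le
    have a2 : (c : ℝ) ≤ 10 ^ 12 := by exact_mod_cast h6
    have a3 : 2 * 10 ^ 12 ≤ Real.sqrt (1 + 48 * (g : ℝ)) := Real.le_sqrt_of_sq_le (by linarith)
    unfold heawood at h4
    linarith
  · refine ⟨Fin 13, inferInstance, cube, cube_cp, cube_genus, cube_chi, max_lt ?_ ?_⟩
    · norm_num [heawood]
    · exact Nat.cast_lt.2 (cube_clique.trans_lt (by norm_num))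

end Pool.Agent.P.MP_1fec7a_co.K68
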