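import Pool.Agent.P.MP_1fec7a_co.K68.Crit

/-! The Kempe components of a critical graph must branch. -/

namespace Pool.Agent.P.MP_1fec7a_co.K68

open Finset Function
open scoped Classical

variable {V : Type} {k : ℕ} {G : SimpleGraph V} {U : Finset V} {L : Finset (Finset V)}
  {K : Finset V} {x : V} {c : V → Fin k} {α : Fin k}

theorem Crit.rot (h : Crit k G U L) (hK : K ∈ L) (hc : Off G x c) {y : V} (hy : y ∈ K)
    (h1 : y = x ∨ ∀ v, G.Adj x v → v ∉ K → c v ≠ c y) {β : Fin k} (hβ : y ≠ x → β ≠ c y) :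
    ∃ v, G.Adj y v ∧ v ≠ x ∧ c v = β := by
  by_cases e : y = x
  · subst e
    obtain ⟨v, a, b⟩ := h.seen hc β
    exact ⟨v, a, a.ne', b⟩
  obtain ⟨v, a, b⟩ := h.seen (hc.move (y := y) (β := c y) fun v a b => by
    by_cases d : v ∈ K
    · exact hc v y (h.cl K hK v d y hy b) a.ne' e
    · exact h1.resolve_left e v a d) β
  have d : v ≠ x := fun d => hβ e (by rw [← b, d, update_self])
  exact ⟨v, a, d, by rwa [update_of_ne d] at b⟩

theorem closed_set (G : SimpleGraph V) (A B : Finset V) {e : V} (he : e ∈ B) :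
    ∃ S ⊆ B, e ∈ S ∧ (A.filter fun u => ∃ z ∈ S, G.Adj z u).card ≤ (A.filter (G.Adj e)).card +
      ∑ z ∈ S.erase e, ((A.filter (G.Adj z)).card - 1) ∧
      ∀ z ∈ B, ∀ u ∈ A, G.Adj z u → (∃ z' ∈ S, G.Adj z' u) → z ∈ S := by
  obtain ⟨S, h1, h2⟩ := exists_max_image (B.powerset.filter fun S => e ∈ S ∧
    (A.filter fun u => ∃ z ∈ S, G.Adj z u).card ≤ (A.filter (G.Adj e)).card +
      ∑ z ∈ S.erase e, ((A.filter (G.Adj z)).card - 1)) card
    ⟨{e}, mem_filter.2 ⟨mem_powerset.2 (singleton_subset_iff.2 he), mem_singleton_self e, by simp⟩⟩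
  obtain ⟨a1, a2, a3⟩ := mem_filter.1 h1
  refine ⟨S, mem_powerset.1 a1, a2, a3, fun z hz u hu a b => ?_⟩
  by_contra hn
  refine absurd (h2 (insert z S) (mem_filter.2 ⟨mem_powerset.2 (insert_subset hz
    (mem_powerset.1 a1)), mem_insert_of_mem a2, ?_⟩)) (by simp [hn])
  have b1 : z ≠ e := fun d => hn (d ▸ a2)
  have b2 : (A.filter fun u => ∃ w ∈ insert z S, G.Adj w u) ⊆
      (A.filter fun u => ∃ z ∈ S, G.Adj z u) ∪ (A.filter (G.Adj z)).erase u := fun v hv => by
    obtain ⟨d1, w, d2, d3⟩ := mem_filter.1 hv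
    by_cases d : v = u
    · exact mem_union_left _ (mem_filter.2 ⟨d1, d ▸ b⟩)
    rcases mem_insert.1 d2 with rfl | d2
    · exact mem_union_right _ (mem_erase.2 ⟨d, mem_filter.2 ⟨d1, d3⟩⟩)
    · exact mem_union_left _ (mem_filter.2 ⟨d1, w, d2, d3⟩)
  have b3 := (card_le_card b2).trans (card_union_le _ _)
  rw [card_erase_of_mem (mem_filter.2 ⟨hu, a⟩)] at b3
  rw [erase_insert_of_ne b1, sum_insert fun d => hn (mem_of_mem_erase d)]
  omega

/-- The colour class of `α`. -/
noncomputable def cls (U : Finset V) (x : V) (c : V → Fin k) (α : Fin k) : Finset V :=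
  U.filter fun z => z ≠ x ∧ c z = α

/-- The vertices of `K` that can exchange their colour with `x`. -/
noncomputable def fan (G : SimpleGraph V) (U K : Finset V) (x : V) (c : V → Fin k) : Finset V :=
  K.filter fun y => y = x ∨ c y ∉ (nbO G U K x).image c

theorem Geo.mem_cls (h : Geo G U L) {y z : V} (a : G.Adj y z) :
    z ∈ cls U x c α ↔ z ≠ x ∧ c z = α := by
  obtain ⟨K', b, -, d⟩ := h.cov _ _ a
  exact mem_filter.trans (and_iff_right (h.sub _ b d))

theorem Crit.fan_card (h : Crit k G U L) (hx : x ∈ K) (hc : Off G x c) :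
    k + 1 ≤ (fan G U K x c).card + (nbO G U K x).card := by
  have a : (univ : Finset (Fin k)) ⊆ ((fan G U K x c).erase x).image c ∪ (nbO G U K x).image c :=
    fun β _ => by
      by_cases d : β ∈ (nbO G U K x).image c
      · exact mem_union_right _ d
      obtain ⟨v, a, rfl⟩ := h.seen hc β
      exact mem_union_left _ (mem_image_of_mem _ (mem_erase.2 ⟨a.ne', mem_filter.2
        ⟨by_contra fun b => d (mem_image_of_mem _ (h.mem_O.2 ⟨a, b⟩)), Or.inr d⟩⟩))
  have b := (card_le_card a).trans ((card_union_le _ _).trans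
    (add_le_add card_image_le card_image_le))
  have d := card_erase_add_one (s := fan G U K x c) (mem_filter.2 ⟨hx, Or.inl rfl⟩)
  rw [card_univ, Fintype.card_fin] at b
  omega

theorem Crit.fan_seen (h : Crit k G U L) (hK : K ∈ L) (hc : Off G x c) {y : V}
    (hy : y ∈ fan G U K x c) {β : Fin k} (hβ : β ∉ (K.erase x).image c) :
    β ∈ (nbO G U K y).image c := by
  obtain ⟨a, b⟩ := mem_filter.1 hy
  obtain ⟨v, d1, d2, rfl⟩ := h.rot hK hc a (b.imp_right fun b v d e f =>
    b (mem_image.2 ⟨v, h.mem_O.2 ⟨d, e⟩, f⟩)) (β := β) fun d e =>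
      hβ (mem_image.2 ⟨y, mem_erase.2 ⟨d, a⟩, e.symm⟩)
  exact mem_image_of_mem _ (h.mem_O.2 ⟨d1, fun e => hβ (mem_image_of_mem _ (mem_erase.2 ⟨d2, e⟩))⟩)

theorem Crit.kempe1 (h : Crit k G U L) (hK : K ∈ L) (hc : Off G x c)
    (hα : ∀ u ∈ K, u ≠ x → c u ≠ α) {e : V} (he : e ∈ K.erase x) :
    ((fan G U K x c).filter fun y => y ≠ e ∧ c e ∉ (nbO G U K y).image c).card ≤
      ((cls U x c α).filter (G.Adj e)).card + ∑ z ∈ U \ (K ∪ cls U x c α) with c z = c e,
        (((cls U x c α).filter (G.Adj z)).card - 1) := by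
  obtain ⟨e1, e2⟩ := mem_erase.1 he
  have inj : ∀ u ∈ K, ∀ v ∈ K, u ≠ x → v ≠ x → c u = c v → u = v := fun u a v b d f g =>
    by_contra fun n => hc u v (h.cl K hK u a v b n) d f g
  obtain ⟨S, s1, s2, s3, s4⟩ := closed_set G (cls U x c α) (cls U x c (c e))
    (mem_filter.2 ⟨h.sub K hK e2, e1, rfl⟩)
  have hβ := hα e e2 e1
  refine le_trans ?_ (s3.trans (Nat.add_le_add_left (sum_le_sum_of_subset fun z hz => ?_) _))
  swap
  · obtain ⟨a, b⟩ := mem_erase.1 hz
    obtain ⟨d1, d2, d3⟩ := mem_filter.1 (s1 b)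
    exact mem_filter.2 ⟨mem_sdiff.2 ⟨d1, fun f => (mem_union.1 f).elim
      (fun g => a (inj z g e e2 d2 e1 d3)) fun g => hβ (d3.symm.trans (mem_filter.1 g).2.2)⟩, d3⟩
  set N := (cls U x c α).filter fun u => ∃ z ∈ S, G.Adj z u
  have g1 : ∀ u ∈ S ∪ N, c u = α ∨ c u = c e := fun u a => (mem_union.1 a).elim
    (fun b => Or.inr (mem_filter.1 (s1 b)).2.2) fun b => Or.inl (mem_filter.1 (mem_filter.1 b).1).2.2
  have g2 : ∀ u ∈ S ∪ N, Equiv.swap α (c e) (c u) = α ∨ Equiv.swap α (c e) (c u) = c e :=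
    fun u a => (g1 u a).elim (fun b => Or.inr (by rw [b, Equiv.swap_apply_left]))
      fun b => Or.inl (by rw [b, Equiv.swap_apply_right])
  have g3 : ∀ u ∈ S ∪ N, ∀ v ∉ S ∪ N, G.Adj u v → u ≠ x → v ≠ x → ¬ (c v = α ∨ c v = c e) := by
    rintro u a v b d f g (n | n) <;> rcases mem_union.1 a with a | a
    · exact b (mem_union_right _ (mem_filter.2 ⟨(h.mem_cls d).2 ⟨g, n⟩, u, a, d⟩))
    · exact hc u v d f g ((mem_filter.1 (mem_filter.1 a).1).2.2.trans n.symm)
    · exact hc u v d f g ((mem_filter.1 (s1 a)).2.2.trans n.symm)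
    · exact b (mem_union_left _ (s4 v ((h.mem_cls d).2 ⟨g, n⟩) u (mem_filter.1 a).1 d.symm
        (mem_filter.1 a).2))
  let c' : V → Fin k := fun v => if v ∈ S ∪ N then Equiv.swap α (c e) (c v) else c v
  have g4 : Off G x c' := fun u v a b d => by
    simp only [c']
    split_ifs with f g g
    · exact fun n => hc u v a b d (Equiv.injective _ n)
    · exact fun n => g3 u f v g a b d (n ▸ g2 u f)
    · exact fun n => g3 v g u f a.symm d b (n ▸ g2 v g)
    · exact hc u v a b d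
  have key : ∀ y ∈ (fan G U K x c).filter fun y => y ≠ e ∧ c e ∉ (nbO G U K y).image c,
      ∃ u ∈ N, G.Adj y u := fun y hy => by
    obtain ⟨a, b1, b2⟩ := mem_filter.1 hy
    obtain ⟨a1, a2⟩ := mem_filter.1 a
    have n1 : y ≠ x → ¬ (c y = α ∨ c y = c e) := fun n m =>
      m.elim (hα y a1 n) fun m => b1 (inj y a1 e e2 n e1 m)
    have n2 : y ≠ x → c' y = c y := fun n => if_neg fun m => n1 n (g1 y m)
    obtain ⟨v, d1, d2, d3⟩ := h.rot hK g4 a1 (β := c e) (by
      by_cases n : y = x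
      · exact Or.inl n
      refine Or.inr fun v d f g => ?_
      rw [n2 n] at g
      simp only [c'] at g
      split_ifs at g with m
      · exact n1 n (g ▸ g2 v m)
      · exact a2.resolve_left n (mem_image.2 ⟨v, h.mem_O.2 ⟨d, f⟩, g⟩)) fun n m =>
        n1 n (Or.inr (m.trans (n2 n)).symm)
    simp only [c'] at d3
    split_ifs at d3 with m
    · refine ⟨v, (mem_union.1 m).resolve_left fun f => hβ ?_, d1⟩
      rw [(mem_filter.1 (s1 f)).2.2, Equiv.swap_apply_right] at d3
      exact d3.symm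
    · by_cases f : v ∈ K
      · exact absurd (mem_union_left _ (inj v f e e2 d2 e1 d3 ▸ s2)) m
      · exact absurd (mem_image.2 ⟨v, h.mem_O.2 ⟨d1, f⟩, d3⟩) b2
  choose! f f1 f2 using key
  refine card_le_card_of_injOn f f1 fun y a y' b d => by_contra fun n => ?_
  obtain ⟨-, m1, m2⟩ := mem_filter.1 (mem_filter.1 (f1 y a)).1
  exact hα _ (h.out K hK y (mem_filter.1 (mem_filter.1 a).1).1 y' (mem_filter.1
    (mem_filter.1 b).1).1 n _ (f2 y a) (d ▸ f2 y' b)) m1 m2

theorem Geo.sum_inter (h : Geo G U L) (hK : K ∈ L) (A : Finset V) :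
    ∑ y ∈ K, (((nbO G U K y).filter (· ∈ A)).card : ℝ) ≤ A.card := by
  have a := h.sum_O hK (fun z => if z ∈ A then 1 else 0) fun z => by positivity
  simp only [sum_boole] at a
  exact a.trans (Nat.cast_le.2 (card_le_card fun z b => (mem_filter.1 b).2))

theorem Crit.kempe (h : Crit k G U L) (hK : K ∈ L) (hc : Off G x c)
    (hα : ∀ u ∈ K, u ≠ x → c u ≠ α) :
    ∑ y ∈ fan G U K x c, ((k : ℝ) - 1 - ((nbO G U K y).image c).card) ≤ (cls U x c α).card +
      ∑ z ∈ U \ (K ∪ cls U x c α), if c z ∈ (K.erase x).image c then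
        ((((cls U x c α).filter (G.Adj z)).card - 1 : ℕ) : ℝ) else 0 := by
  have a1 := sum_card_bipartiteAbove_eq_sum_card_bipartiteBelow (s := fan G U K x c)
    (t := K.erase x) fun y e => y ≠ e ∧ c e ∉ (nbO G U K y).image c
  have a2 := a1.trans_le (sum_le_sum fun e he => h.kempe1 hK hc hα he)
  rw [sum_add_distrib] at a2
  have a3 := (Nat.cast_le (α := ℝ)).2 a2
  rw [Nat.cast_add, Nat.cast_sum, Nat.cast_sum, Nat.cast_sum] at a3
  refine (sum_le_sum fun y hy => ?_).trans (a3.trans (add_le_add ?_ ?_))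
  · have a : (univ : Finset (Fin k)) ⊆ insert (c y) ((((K.erase x).bipartiteAbove (fun y e => y ≠ e ∧
        c e ∉ (nbO G U K y).image c) y).image c) ∪ (nbO G U K y).image c) := fun β _ => by
      by_cases d : β ∈ (nbO G U K y).image c
      · exact mem_insert_of_mem (mem_union_right _ d)
      obtain ⟨e, d1, rfl⟩ := mem_image.1 (by_contra fun n => d (h.fan_seen hK hc hy n))
      by_cases f : y = e
      · exact f ▸ mem_insert_self _ _
      · exact mem_insert_of_mem (mem_union_left _ (mem_image_of_mem _ (mem_filter.2 ⟨d1, f, d⟩)))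
    have b := (card_le_card a).trans ((card_insert_le _ _).trans (Nat.add_le_add_right
      ((card_union_le _ _).trans (Nat.add_le_add_right card_image_le _)) 1))
    rw [card_univ, Fintype.card_fin] at b
    have := (Nat.cast_le (α := ℝ)).2 b
    push_cast at this
    linarith
  · refine le_trans ?_ (h.sum_inter hK (cls U x c α))
    refine (sum_le_sum fun e _ => Nat.cast_le.2 (card_le_card fun z b => ?_)).trans
      (sum_le_sum_of_subset_of_nonneg (erase_subset x K) fun _ _ _ => Nat.cast_nonneg _)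
    obtain ⟨b1, b2⟩ := mem_filter.1 b
    exact mem_filter.2 ⟨h.mem_O.2 ⟨b2, fun n =>
      hα z n (mem_filter.1 b1).2.1 (mem_filter.1 b1).2.2⟩, b1⟩
  · simp only [sum_filter, Nat.cast_sum]
    rw [sum_comm]
    refine sum_le_sum fun z _ => ?_
    split_ifs with d
    · obtain ⟨e, d1, d2⟩ := mem_image.1 d
      rw [sum_eq_single e, if_pos d2.symm]
      · intro e' f g
        rw [if_neg, Nat.cast_zero]
        exact fun n => hc e' e (h.cl K hK e' (mem_erase.1 f).2 e (mem_erase.1 d1).2 g)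
          (mem_erase.1 f).1 (mem_erase.1 d1).1 (n.symm.trans d2.symm)
      · exact fun n => absurd d1 n
    · refine (sum_eq_zero fun e f => ?_).le
      rw [if_neg fun n => d (mem_image.2 ⟨e, f, n.symm⟩), Nat.cast_zero]

end Pool.Agent.P.MP_1fec7a_co.K68
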