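import Pool.Agent.P.MP_1fec7a_co.GenusBound

/-! Euler's formula for subgraphs of an embedded graph, by linear algebra over the field with two
elements. -/

namespace Pool.Agent.P.MP_1fec7a_co.K68

open Finset Function Matrix Module

section Lin

variable {D W Φ C : Type} [Fintype D]

/-- The incidence matrix of a family of pairs. -/
def incM [DecidableEq W] (u v : D → W) : Matrix D W (ZMod 2) :=
  fun d w => (if u d = w then 1 else 0) + (if v d = w then 1 else 0)

omit [Fintype D] in
theorem incM_mulVec [Fintype W] [DecidableEq W] (u v : D → W) (y : W → ZMod 2) (d : D) :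
    (incM u v *ᵥ y) d = y (u d) + y (v d) := by
  simp [incM, mulVec, dotProduct, add_mul, sum_add_distrib]

theorem z2_eq {x y : ZMod 2} : x + y = 0 ↔ x = y := by
  revert x y; decide

omit [Fintype D] in
theorem rank_ge [Fintype W] [DecidableEq W] [Fintype C] (u v : D → W) (π : W → C)
    (h : ∀ y : W → ZMod 2, (∀ d, y (u d) = y (v d)) → ∀ w w', π w = π w' → y w = y w') :
    Fintype.card W ≤ finrank (ZMod 2) (LinearMap.range (incM u v).mulVecLin) + Fintype.card C := by
  classical
  have h1 := LinearMap.finrank_range_add_finrank_ker (incM u v).mulVecLin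
  have h2 : LinearMap.ker (incM u v).mulVecLin ≤
      LinearMap.range (LinearMap.funLeft (ZMod 2) (ZMod 2) π) := by
    intro y hy
    have h3 := h y fun d => z2_eq.1 (by rw [← incM_mulVec]; exact congrFun hy d)
    refine ⟨fun c => if hc : ∃ w, π w = c then y hc.choose else 0, funext fun w => ?_⟩
    have hc : ∃ w', π w' = π w := ⟨w, rfl⟩
    simp only [LinearMap.funLeft_apply, dif_pos hc]
    exact h3 _ _ hc.choose_spec
  have h3 := (Submodule.finrank_mono h2).trans (LinearMap.finrank_range_le _)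
  rw [finrank_fintype_fun_eq_card] at h1 h3
  omega

/-- Cycles modulo two. -/
def Cyc [DecidableEq W] (u v : D → W) (z : D → ZMod 2) : Prop :=
  ∀ w, ∑ d, ((if u d = w then z d else 0) + if v d = w then z d else 0) = 0

theorem cyc_iff [Fintype W] [DecidableEq W] (u v : D → W) (z : D → ZMod 2) :
    z ∈ LinearMap.ker (incM u v)ᵀ.mulVecLin ↔ Cyc u v z := by
  rw [LinearMap.mem_ker, funext_iff]
  refine forall_congr' fun w => ?_
  simp [incM, vecMul, dotProduct, mul_add]

theorem weighted [Fintype W] [Fintype Φ] [Fintype C] [DecidableEq W] [DecidableEq Φ]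
    [DecidableEq D] (u v : D → W) (l r : D → Φ) (π : W → C) (ρ : Φ → C) (g : ℕ)
    (h0 : ∀ s : Φ → ZMod 2, Cyc u v fun d => s (l d) + s (r d))
    (h1 : ∀ y : W → ZMod 2, (∀ d, y (u d) = y (v d)) → ∀ w w', π w = π w' → y w = y w')
    (h2 : ∀ s : Φ → ZMod 2, (∀ d, s (l d) = s (r d)) → ∀ e e', ρ e = ρ e' → s e = s e')
    (he : 2 * Fintype.card C + Fintype.card D ≤ Fintype.card W + Fintype.card Φ + 2 * g)
    (S : Finset D) (ω : D → ℝ) (hω : ∀ d, 0 ≤ ω d)
    (hg : ∀ z, Cyc u v z → z ≠ 0 → (∀ d ∉ S, z d = 0) → 1 ≤ ∑ d ∈ S with z d ≠ 0, ω d) :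
    (S.card : ℝ) ≤ (S.image u ∪ S.image v).card + 2 * ∑ d ∈ S, ω d + 2 * g := by
  classical
  let Z := LinearMap.ker (incM u v)ᵀ.mulVecLin
  let B := LinearMap.range (incM l r).mulVecLin
  have a1 : B ≤ Z := by
    rintro _ ⟨s, rfl⟩
    refine (cyc_iff u v _).2 ?_
    have : (incM l r).mulVecLin s = fun d => s (l d) + s (r d) := funext (incM_mulVec l r s)
    rw [this]
    exact h0 s
  have a2 := rank_ge u v π h1
  have a3 := rank_ge l r ρ h2
  have a4 := LinearMap.finrank_range_add_finrank_ker (incM u v)ᵀ.mulVecLin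
  have a5 : finrank (ZMod 2) (LinearMap.range (incM u v)ᵀ.mulVecLin) =
    finrank (ZMod 2) (LinearMap.range (incM u v).mulVecLin) := rank_transpose (incM u v)
  rw [finrank_fintype_fun_eq_card] at a4
  let ψ : (D → ZMod 2) →ₗ[ZMod 2] ((S.image u ∪ S.image v : Finset W) → ZMod 2) ×
      ((Sᶜ : Finset D) → ZMod 2) :=
    LinearMap.prod (LinearMap.funLeft _ _ Subtype.val ∘ₗ (incM u v)ᵀ.mulVecLin)
      (LinearMap.funLeft _ _ Subtype.val)
  have b1 := LinearMap.finrank_range_add_finrank_ker ψ
  have b2 := Submodule.finrank_le (LinearMap.range ψ)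
  simp only [finrank_prod, finrank_fintype_fun_eq_card, Fintype.card_coe, card_compl] at b1 b2
  have b3 := card_le_univ S
  have z0 : ∀ z ∈ LinearMap.ker ψ, ∀ d ∉ S, z d = 0 := fun z hz d hd =>
    congrFun (congrArg Prod.snd (LinearMap.mem_ker.1 hz)) ⟨d, mem_compl.2 hd⟩
  have b4 : LinearMap.ker ψ ≤ Z := by
    intro z hz
    refine funext fun w => ?_
    by_cases hw : w ∈ S.image u ∪ S.image v
    · exact congrFun (congrArg Prod.fst (LinearMap.mem_ker.1 hz)) ⟨w, hw⟩
    · simp only [mem_union, mem_image, not_or, not_exists, not_and] at hw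
      simp only [mulVecLin_apply, mulVec_transpose, vecMul, dotProduct, Pi.zero_apply]
      refine sum_eq_zero fun d _ => ?_
      by_cases hd : d ∈ S
      · simp [incM, hw.1 d hd, hw.2 d hd]
      · simp [z0 z hz d hd]
  have b5 := Submodule.finrank_sup_add_finrank_inf_eq (LinearMap.ker ψ) B
  have b6 := Submodule.finrank_mono (sup_le b4 a1)
  let cl : Φ → ({s : Φ → ZMod 2 // ∀ d ∉ S, s (l d) = s (r d)} → ZMod 2) := fun e s => s.1 e
  let bd : ({s : Φ → ZMod 2 // ∀ d ∉ S, s (l d) = s (r d)} → ZMod 2) → D → ZMod 2 :=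
    fun R d => (if cl (l d) = R then 1 else 0) + (if cl (r d) = R then 1 else 0)
  let G := (univ.image cl).filter fun R => bd R ≠ 0
  have c1 : LinearMap.ker ψ ⊓ B ≤ Submodule.span (ZMod 2) (G.image bd : Set (D → ZMod 2)) := by
    rintro z ⟨hz, s, hs⟩
    have hs' : ∀ d, z d = s (l d) + s (r d) := fun d => by
      rw [← hs]
      exact incM_mulVec l r s d
    have hS : ∀ d ∉ S, s (l d) = s (r d) := fun d hd => z2_eq.1 ((hs' d).symm.trans (z0 z hz d hd))
    have : z = ∑ R ∈ univ.image cl, R ⟨s, hS⟩ • bd R := by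
      funext d
      rw [hs' d, Finset.sum_apply]
      simp only [bd, Pi.smul_apply, smul_eq_mul, mul_add, sum_add_distrib, mul_ite, mul_one,
        mul_zero, sum_ite_eq, mem_image, mem_univ, true_and, exists_apply_eq_apply, if_true]
      rfl
    rw [this]
    refine Submodule.sum_mem _ fun R hR => Submodule.smul_mem _ _ ?_
    by_cases h : bd R = 0
    · rw [h]; exact Submodule.zero_mem _
    · exact Submodule.subset_span (mem_coe.2 (mem_image_of_mem _ (mem_filter.2 ⟨hR, h⟩)))
  have c2 := (Submodule.finrank_mono c1).trans (finrank_span_finset_le_card (R := ZMod 2) _)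
  have c3 : (G.image bd).card ≤ G.card := card_image_le
  have c4 : ∑ _R ∈ G, (1 : ℝ) ≤ ∑ R ∈ G, ∑ d ∈ S with bd R d ≠ 0, ω d := by
    refine sum_le_sum fun R hR => hg _ (h0 fun e => if cl e = R then 1 else 0)
      (mem_filter.1 hR).2 fun d hd => ?_
    have : cl (l d) = cl (r d) := funext fun s => s.2 d hd
    exact z2_eq.2 (by rw [this])
  have c5 : ∑ R ∈ G, ∑ d ∈ S with bd R d ≠ 0, ω d ≤ 2 * ∑ d ∈ S, ω d := by
    simp only [sum_filter]
    rw [sum_comm, mul_sum]
    refine sum_le_sum fun d _ => ?_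
    rw [← sum_filter, sum_const, nsmul_eq_mul]
    refine mul_le_mul_of_nonneg_right ?_ (hω d)
    refine Nat.cast_le_ofNat.2 (le_trans (card_le_card ?_)
      (card_le_two (a := cl (l d)) (b := cl (r d))))
    intro R hR
    have := (mem_filter.1 hR).2
    by_contra hc
    simp only [mem_insert, mem_singleton, not_or] at hc
    exact this (by simp only [bd, if_neg (Ne.symm hc.1), if_neg (Ne.symm hc.2), add_zero])
  rw [sum_const, nsmul_eq_mul, mul_one] at c4
  have c6 : S.card ≤ (S.image u ∪ S.image v).card + G.card + 2 * g := by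
    change _ ≤ finrank (ZMod 2) B + _ at a3
    change _ + finrank (ZMod 2) Z = _ at a4
    omega
  have c7 : (S.card : ℝ) ≤ (S.image u ∪ S.image v).card + G.card + 2 * g := by exact_mod_cast c6
  linarith

theorem other [DecidableEq W] {u v : D → W} {z : D → ZMod 2} (h : Cyc u v z)
    (huv : ∀ d d', u d ≠ v d') {d : D} (hd : z d ≠ 0) :
    (∃ d', d' ≠ d ∧ z d' ≠ 0 ∧ u d' = u d) ∧ ∃ d', d' ≠ d ∧ z d' ≠ 0 ∧ v d' = v d := by
  constructor <;> by_contra! hc
  · have := h (u d)
    rw [sum_eq_single d, if_pos rfl, if_neg (huv d d).symm, add_zero] at this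
    · exact hd this
    · intro d' _ h1
      rw [if_neg (huv d d').symm, add_zero]
      split_ifs with h2
      · by_contra h3
        exact hc d' h1 h3 h2
      · rfl
    · simp
  · have := h (v d)
    rw [sum_eq_single d, if_pos rfl, if_neg (huv d d), zero_add] at this
    · exact hd this
    · intro d' _ h1
      rw [if_neg (huv d' d), zero_add]
      split_ifs with h2
      · by_contra h3
        exact hc d' h1 h3 h2
      · rfl
    · simp

end Lin

end Pool.Agent.P.MP_1fec7a_co.K68
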