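import Pool.Agent.P.MP_1fec7a_co.K68.Master

/-! The weight of a critical graph is at least `k ^ 2 / 6`. -/

namespace Pool.Agent.P.MP_1fec7a_co.K68

open Finset Function
open scoped Classical

variable {V : Type} {k : ℕ} {G : SimpleGraph V} {U : Finset V} {L : Finset (Finset V)}

theorem Geo.plain (h : Geo G U L) : ∑ z ∈ U, ((3 - 6 / 1000000 : ℝ) * ((pts L z).filter big).card +
    ((pts L z).filter fun Q => ¬ big Q).card - 4) ≤ 4 * (∑ Q ∈ L, fw Q.card - U.card) := by
  have a := h.wt (∅ ∪ ∅) (bt ∅ ∅) fun Q a => bt_le (by simp) (h.two Q a)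
  rw [union_self, sdiff_empty, card_empty, Nat.cast_zero, sub_zero] at a
  refine le_trans (le_of_eq ?_) (mul_le_mul_of_nonneg_left a (by norm_num))
  rw [mul_sum]
  refine sum_congr rfl fun z _ => ?_
  rw [mul_sub, bt_sum]
  simp

theorem Geo.card_ge (h : Geo G U L) {K : Finset V} (hK : K ∈ L) {d : ℝ}
    (hd : ∀ y ∈ K, d ≤ (nbO G U K y).card) : K.card * d ≤ U.card := by
  have a := h.sum_O hK (fun _ => 1) fun _ => zero_le_one
  simp only [sum_const, nsmul_eq_mul, mul_one] at a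
  exact ((nsmul_eq_mul _ _).symm.trans_le (card_nsmul_le_sum _ _ _ hd)).trans
    (a.trans (Nat.cast_le.2 (card_le_card sdiff_subset)))

theorem Geo.O_le' (h : Geo G U L) (K : Finset V) (y : V) (m : ℕ)
    (hm : ∀ Q ∈ pts L y, Q.card ≤ m) : (nbO G U K y).card ≤
      (((pts L y).erase K).filter big).card * m + ((pts L y).erase K).card * 1000000 := by
  refine (h.O_le K y).trans ?_
  rw [← sum_filter_add_sum_filter_not _ big]
  refine add_le_add (sum_le_card_nsmul _ _ m fun Q a => ?_) ((sum_le_card_nsmul _ _ 1000000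
    fun Q a => ?_).trans (Nat.mul_le_mul_right _ (card_filter_le _ _)))
  · exact (Nat.sub_le _ _).trans (hm Q (mem_erase.1 (mem_filter.1 a).1).2)
  · exact (Nat.sub_le _ _).trans (not_le.1 (mem_filter.1 a).2).le

theorem Crit.caseA2 (h : Crit k G U L) (hk : 10 ^ 12 ≤ k)
    (hO : ∀ K ∈ L, ∀ z ∈ K, K.card + 10 ^ 9 < (nbO G U K z).card) :
    (k : ℝ) ^ 2 / 6 ≤ ∑ Q ∈ L, fw Q.card - U.card := by
  obtain ⟨u, v, a, -⟩ := h.ncol fun _ => ⟨0, by omega⟩
  obtain ⟨K, b, -⟩ := h.cov u v a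
  obtain ⟨K, hK, hm⟩ := exists_max_image L card ⟨K, b⟩
  have a1 : U.card • (0.99 * ((k : ℝ) + 2 * K.card)) ≤ ∑ z ∈ U, K.card * ((3 - 6 / 1000000 : ℝ) *
      ((pts L z).filter big).card + ((pts L z).filter fun Q => ¬ big Q).card - 4) :=
    card_nsmul_le_sum _ _ _ fun z hz => by
      have b1 := (h.deg0 hz).trans (sum_le_card_nsmul _ _ K.card fun Q a =>
        (Nat.sub_le _ _).trans (hm Q (mem_pts.1 a).1))
      have b2 := card_filter_add_card_filter_not (s := pts L z) big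
      have b3 : 3 ≤ ((pts L z).filter big).card ∨ 1000 ≤ (pts L z).card := by
        by_contra! x
        obtain ⟨Q, d1, d2⟩ := exists_max_image (pts L z) card
          (card_pos.1 (two_pos.trans_le (h.two_le (by omega) hz)))
        have d3 := (hO Q (mem_pts.1 d1).1 z (mem_pts.1 d1).2).trans_le (h.O_le' Q z _ d2)
        have d4 := card_erase_add_one d1
        have d5 : (((pts L z).erase Q).filter big).card ≤ 1 := by
          by_cases e : big Q
          · rw [filter_erase, card_erase_of_mem (mem_filter.2 ⟨d1, e⟩)]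
            omega
          · rw [(filter_eq_empty_iff (p := big)).2 fun P f g =>
              e (le_trans g (d2 P (mem_of_mem_erase f)))]
            simp
        have := Nat.mul_le_mul_right Q.card d5
        omega
      have b5 : 0.99 * (((pts L z).card : ℝ) + 2) ≤ (3 - 6 / 1000000 : ℝ) *
          ((pts L z).filter big).card + ((pts L z).filter fun Q => ¬ big Q).card - 4 := by
        have b4 := congrArg (Nat.cast (R := ℝ)) b2
        have := Nat.cast_nonneg (α := ℝ) ((pts L z).filter big).card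
        have := Nat.cast_nonneg (α := ℝ) ((pts L z).filter fun Q => ¬ big Q).card
        push_cast at b4
        rcases b3 with e | e <;> have := (Nat.cast_le (α := ℝ)).2 e <;> push_cast at this <;>
          linarith
      have b6 := (Nat.cast_le (α := ℝ)).2 b1
      rw [smul_eq_mul] at b6
      push_cast at b6
      have := mul_le_mul_of_nonneg_left b5 (Nat.cast_nonneg K.card)
      linarith
  have a2 := h.card_ge hK (d := K.card) fun y a => by
    exact_mod_cast (Nat.le_add_right _ _).trans (hO K hK y a).le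
  have a3 := h.card_ge hK (d := k - K.card) fun y a => by
    have := (Nat.cast_le (α := ℝ)).2 (h.deg1 hK a)
    push_cast at this
    linarith
  have a4 : (2 : ℝ) ≤ K.card := by exact_mod_cast h.two K hK
  have a5 := mul_le_mul_of_nonneg_left h.plain (Nat.cast_nonneg (α := ℝ) K.card)
  have a6 : (0 : ℝ) ≤ k := Nat.cast_nonneg k
  rw [nsmul_eq_mul, ← mul_sum] at a1
  have a7 := a1.trans a5
  refine le_of_mul_le_mul_left ?_ (show (0 : ℝ) < K.card by linarith)
  generalize ∑ Q ∈ L, fw Q.card - U.card = W at *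
  generalize (K.card : ℝ) = D at *
  have a8 : D * (k : ℝ) ^ 2 ≤ U.card * (k + 2 * D) := by
    rcases le_total (2 * D) k with e | e
    · have := mul_le_mul_of_nonneg_right a3 (show 0 ≤ k + 2 * D by linarith)
      nlinarith [mul_nonneg (mul_nonneg (show 0 ≤ D by linarith) (show 0 ≤ D by linarith))
        (sub_nonneg.2 e)]
    · have := mul_le_mul_of_nonneg_right a2 (show 0 ≤ k + 2 * D by linarith)
      nlinarith [mul_nonneg (mul_nonneg (show 0 ≤ D by linarith) (show 0 ≤ k + D by linarith))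
        (sub_nonneg.2 e)]
  nlinarith [mul_nonneg (show 0 ≤ D by linarith) (sq_nonneg (k : ℝ))]

theorem arithB {k r p s : ℝ} (k0 : 10 ^ 12 ≤ k) (a1 : k ≤ r + 4000000) (a2 : p ≤ r) (a3 : r ≤ s)
    (a4 : s ≤ k) (a5 : (r - p) * (k - 2) + p * (p - 3) + (s - r) * -1 ≤ 0.67 * k ^ 2) : False := by
  nlinarith [sq_nonneg (p - k / 2), mul_le_mul_of_nonneg_right a1 (show 0 ≤ k - 1 by linarith)]

theorem Crit.caseB (h : Crit k G U L) (hk : 10 ^ 12 ≤ k)
    (hW : ∑ Q ∈ L, fw Q.card - U.card < (k : ℝ) ^ 2 / 6) {z : V} (hz : z ∈ U) : Rich L z := by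
  by_contra hn
  let S := L.filter fun K => big K ∧ ∃ z ∈ K, ¬ Rich L z
  obtain ⟨K, hK⟩ := card_pos.1 (h.has_big hk hz (Nat.lt_succ_iff.1 (not_le.1 (not_or.1 hn).2)))
  obtain ⟨K, hS, hm⟩ := exists_min_image S (fun K => (K.filter (Rich L)).card) ⟨K, mem_filter.2
    ⟨(mem_pts.1 (mem_filter.1 hK).1).1, (mem_filter.1 hK).2, z,
      (mem_pts.1 (mem_filter.1 hK).1).2, hn⟩⟩
  obtain ⟨hK, hb, x, hx, hn⟩ := mem_filter.1 hS
  obtain ⟨R, A, φ, m1, m2, m3, m4, m5, -, m7⟩ := h.master hk hW hK hx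
  have a1 : (nbO G U K x).card ≤ 4000000 := by
    have b1 := h.O_le' K x k fun Q a => h.le Q (mem_pts.1 a).1
    have b2 := card_erase_add_one (mem_pts.2 ⟨hK, hx⟩)
    have b3 := card_erase_add_one (mem_filter.2 ⟨mem_pts.2 ⟨hK, hx⟩, hb⟩)
    have b4 := not_or.1 hn
    rw [filter_erase, show (((pts L x).filter big).erase K).card = 0 by omega] at b1
    omega
  let P := R.filter fun y => ∃ Q ∈ S, Q ≠ K ∧ y ∈ Q
  have a2 : P.card ≤ (K.filter (Rich L)).card := card_le_card fun y a => by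
    obtain ⟨b1, Q, b2, b3, b4⟩ := mem_filter.1 a
    exact mem_filter.2 ⟨m1 b1, Or.inl (one_lt_card.2 ⟨Q, mem_filter.2 ⟨mem_pts.2
      ⟨(mem_filter.1 b2).1, b4⟩, (mem_filter.1 b2).2.1⟩, K,
        mem_filter.2 ⟨mem_pts.2 ⟨hK, m1 b1⟩, hb⟩, b3⟩)⟩
  have a3 : P.card • ((P.card : ℝ) - 3) ≤ ∑ y ∈ P, φ y := card_nsmul_le_sum _ _ _ fun y a => by
    obtain ⟨b1, Q, b2, b3, b4⟩ := mem_filter.1 a
    have hQ := (mem_filter.1 b2).1
    have d1 := m7 y (m1 b1) ((Q.filter (Rich L)).erase y) (fun z d => by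
      obtain ⟨d1, d2⟩ := mem_erase.1 d
      have d3 := (mem_filter.1 d2).1
      exact h.mem_O.2 ⟨h.cl Q hQ y b4 z d3 d1.symm, fun e => b3 (h.lin hQ hK d1 d3 b4 e (m1 b1))⟩)
      fun z d => (mem_filter.1 (mem_erase.1 d).2).2
    have d2 : (((Q.filter (Rich L)).erase y).filter (· ∈ A)).card ≤ 1 :=
      card_le_one.2 fun u e v f => by_contra fun n => m2 u (mem_filter.1 e).2 v (mem_filter.1 f).2
        (h.cl Q hQ u (mem_filter.1 (mem_erase.1 (mem_filter.1 e).1).2).1 v
          (mem_filter.1 (mem_erase.1 (mem_filter.1 f).1).2).1 n)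
    have d3 : P.card ≤ ((Q.filter (Rich L)).erase y).card + 1 := by
      have := pred_card_le_card_erase (s := Q.filter (Rich L)) (a := y)
      have := hm Q b2
      omega
    have d4 := (Nat.cast_le (α := ℝ)).2 d2
    have d5 := (Nat.cast_le (α := ℝ)).2 d3
    push_cast at d4 d5
    linarith
  have a4 : (R \ P).card • ((k : ℝ) - 2) ≤ ∑ y ∈ R \ P, φ y :=
    card_nsmul_le_sum _ _ _ fun y a => m5 y (mem_sdiff.1 a).1 fun z b => by
      obtain ⟨b1, b2⟩ := h.mem_O.1 b
      obtain ⟨Q, d1, d2, d3⟩ := h.cov _ _ b1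
      by_contra! n
      refine (mem_sdiff.1 a).2 (mem_filter.2 ⟨(mem_sdiff.1 a).1, Q, mem_filter.2 ⟨d1, ?_, z, d3,
        n.1⟩, fun e => b2 (e ▸ d3), d2⟩)
      by_contra e
      exact n.2 Q (mem_pts.2 ⟨d1, d3⟩) e y (m1 (mem_sdiff.1 a).1) d2
  have a5 : (K \ R).card • (-1 : ℝ) ≤ ∑ y ∈ K \ R, φ y := card_nsmul_le_sum _ _ _ fun y a => by
    simpa using m7 y (mem_sdiff.1 a).1 ∅ (empty_subset _) (by simp)
  have a6 : P ⊆ R := filter_subset _ _
  rw [nsmul_eq_mul] at a3 a4 a5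
  rw [cast_card_sdiff a6] at a4
  rw [cast_card_sdiff m1] at a5
  rw [← sum_sdiff m1, ← sum_sdiff a6] at m3
  refine arithB (k := k) (r := R.card) (p := P.card) (s := K.card) (by exact_mod_cast hk)
    (by exact_mod_cast (by omega)) (Nat.cast_le.2 (card_le_card a6))
    (Nat.cast_le.2 (card_le_card m1)) (Nat.cast_le.2 (h.le K hK)) ?_
  linarith [Nat.cast_nonneg (α := ℝ) A.card]

theorem arithA {k r s d : ℝ} (k0 : 10 ^ 12 ≤ k) (a1 : k ≤ r + d) (a2 : d ≤ s + 10 ^ 9)
    (a4 : s ≤ k) (a5 : r * (2 * k - s - 2) + (s - r) * (d - 1) ≤ 0.67 * k ^ 2)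
    (a6 : (2 - 12 / 1000000) * (s * d) < 4 * (k ^ 2 / 6)) (a7 : 0 ≤ d) : False := by
  have b0 : d - k / 1000 ≤ s := by linarith
  rcases le_total (0.585 * k) d with e | e
  · have := mul_le_mul (show 0.584 * k ≤ s by linarith) e (by linarith) (by linarith)
    nlinarith
  have b1 := mul_le_mul_of_nonneg_right (show k - d ≤ r by linarith)
    (show 0 ≤ 2 * k - s - d - 1 by linarith)
  have b2 : 1000 * k ≤ k ^ 2 := by nlinarith
  rcases le_total (2 * d) k with f | f
  · have := mul_le_mul_of_nonneg_right a4 (sub_nonneg.2 f)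
    nlinarith [sq_nonneg (d - k / 2)]
  · have := mul_le_mul_of_nonneg_right b0 (sub_nonneg.2 f)
    nlinarith [mul_nonneg (sub_nonneg.2 e) (show 0 ≤ k - d by linarith),
      mul_nonneg (sub_nonneg.2 e) (show 0 ≤ k by linarith), sq_nonneg (0.585 * k - d)]

theorem Crit.main (h : Crit k G U L) (hk : 10 ^ 12 ≤ k) :
    (k : ℝ) ^ 2 / 6 ≤ ∑ Q ∈ L, fw Q.card - U.card := by
  by_contra! hW
  have hR : ∀ z ∈ U, Rich L z := fun z => h.caseB hk hW
  obtain ⟨K, hK, z, hz, hO⟩ : ∃ K ∈ L, ∃ z ∈ K, (nbO G U K z).card ≤ K.card + 10 ^ 9 := by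
    by_contra! n
    exact (h.caseA2 hk n).not_gt hW
  obtain ⟨x, hx, hm⟩ := exists_min_image K (fun y => (nbO G U K y).card) ⟨z, hz⟩
  obtain ⟨R, A, φ, m1, -, m3, m4, -, m6, m7⟩ := h.master hk hW hK hx
  have hr : ∀ y, ∀ z ∈ nbO G U K y, Rich L z := fun y z a => hR z (mem_filter.1 a).1
  have a1 := card_nsmul_le_sum R φ _ fun y a => m6 y a (hr y)
  have a2 : ∑ y ∈ K \ R, (((nbO G U K x).card : ℝ) - 1 - ((nbO G U K y).filter (· ∈ A)).card) ≤
      ∑ y ∈ K \ R, φ y := sum_le_sum fun y a => by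
    have := m7 y (mem_sdiff.1 a).1 _ subset_rfl (hr y)
    have := (Nat.cast_le (α := ℝ)).2 (hm y (mem_sdiff.1 a).1)
    linarith
  have a3 := (sum_le_sum_of_subset_of_nonneg (sdiff_subset (s := K) (t := R))
    fun _ _ _ => Nat.cast_nonneg _).trans (h.sum_inter hK A)
  have a4 := h.card_ge hK fun y a => Nat.cast_le.2 (hm y a)
  have a5 := (card_nsmul_le_sum U _ (2 - 12 / 1000000 : ℝ) fun z a => by
    have b2 := card_filter_add_card_filter_not (s := pts L z) big
    have b3 := hR z a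
    have b4 : 6000000 + 6 * ((pts L z).filter big).card ≤ 1000000 * (3 * ((pts L z).filter big).card +
        ((pts L z).filter fun Q => ¬ big Q).card) + 12 := by
      unfold Rich at b3
      omega
    have b5 := (Nat.cast_le (α := ℝ)).2 b4
    push_cast at b5
    linarith).trans h.plain
  rw [sum_sub_distrib, sum_const, nsmul_eq_mul, cast_card_sdiff m1] at a2
  rw [nsmul_eq_mul] at a1 a5
  rw [← sum_sdiff m1] at m3
  refine arithA (k := k) (r := R.card) (s := K.card) (d := (nbO G U K x).card)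
    (by exact_mod_cast hk) (by exact_mod_cast (by omega)) ?_ (Nat.cast_le.2 (h.le K hK))
    (by linarith) (by linarith) (Nat.cast_nonneg _)
  exact_mod_cast (hm z hz).trans hO

/-- Clique partitioned graphs of large chromatic number satisfy the inequality of Q2. -/
theorem chi_le [Fintype V] (hG : CliquePartitioned G) {c : ℕ} (hc : G.chromaticNumber = c)
    (h1 : 10 ^ 12 < c) (h2 : G.cliqueNum < c) : (c : ℝ) ≤ heawood (reducedGenus G) - 1 := by
  obtain ⟨k, rfl⟩ := Nat.exists_eq_succ_of_ne_zero (show c ≠ 0 by omega)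
  obtain ⟨U, L, h⟩ := exists_crit (k := k) hG (by omega) fun a => by
    have := a.chromaticNumber_le
    rw [hc, Nat.cast_le] at this
    omega
  have a1 := h.main (by omega)
  have a2 := geo_euler h.toGeo
  have a3 : 2 * (k : ℝ) ≤ Real.sqrt (1 + 48 * (reducedGenus G : ℝ)) :=
    Real.le_sqrt_of_sq_le (by linarith)
  unfold heawood
  push_cast
  linarith

end Pool.Agent.P.MP_1fec7a_co.K68
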