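import Pool.Agent.P.MP_1fec7a_co.K68.Kempe

/-! Redistribution of the weights and the master inequality. -/

namespace Pool.Agent.P.MP_1fec7a_co.K68

open Finset Function
open scoped Classical

variable {V : Type} {k : ℕ} {G : SimpleGraph V} {U : Finset V} {L : Finset (Finset V)}

/-- Large cliques. -/
def big (K : Finset V) : Prop := 1000000 ≤ K.card

/-- Vertices on two large cliques or on six cliques. -/
def Rich (L : Finset (Finset V)) (z : V) : Prop :=
  2 ≤ ((pts L z).filter big).card ∨ 6 ≤ (pts L z).card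

/-- The share that the clique `Q` gives to each of its vertices outside `A` and `K`. -/
noncomputable def bt (A K Q : Finset V) : ℝ :=
  if big Q then 3 / 4 - 3 / 2000000 else
    (1 + (if ∃ u ∈ A, u ∈ Q then 1 else 0) + if ∃ u ∈ K, u ∈ Q then 1 else 0) / 4

theorem bt_le {A K Q : Finset V} (hd : ∀ u ∈ A, u ∉ K) (h2 : 2 ≤ Q.card) :
    bt A K Q * (Q \ (K ∪ A)).card ≤ fw Q.card := by
  have a : (2 : ℝ) ≤ Q.card := by exact_mod_cast h2
  have b : ((Q.card : ℝ) - 1) / 2 ≤ fw Q.card := le_max_left _ _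
  have c : 3 * ((Q.card : ℝ) - 2) / 4 ≤ fw Q.card := le_max_right _ _
  have d : ∀ s ⊆ Q, s ⊆ K ∪ A → ((Q \ (K ∪ A)).card : ℝ) + s.card ≤ Q.card := fun s x y => by
    have := card_le_card (sdiff_subset_sdiff (subset_refl Q) y)
    have := card_sdiff_add_card_eq_card x
    exact_mod_cast (by omega)
  have d0 := d ∅ (empty_subset _) (empty_subset _)
  rw [card_empty, Nat.cast_zero] at d0
  unfold bt
  split_ifs with h1 h3 h4 h4
  · have : (1000000 : ℝ) ≤ Q.card := by exact_mod_cast h1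
    linarith
  · obtain ⟨u, a1, a2⟩ := h3
    obtain ⟨v, b1, b2⟩ := h4
    have := d {u, v} (by simp [insert_subset_iff, *]) (by simp [insert_subset_iff, *])
    rw [card_pair fun e : u = v => hd u a1 (e ▸ b1), Nat.cast_ofNat] at this
    linarith
  · obtain ⟨u, a1, a2⟩ := h3
    have := d {u} (by simp [*]) (by simp [*])
    rw [card_singleton, Nat.cast_one] at this
    linarith
  · obtain ⟨u, a1, a2⟩ := h4
    have := d {u} (by simp [*]) (by simp [*])
    rw [card_singleton, Nat.cast_one] at this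
    linarith
  · linarith

theorem bt_sum (A K : Finset V) (P : Finset (Finset V)) : 4 * ∑ Q ∈ P, bt A K Q =
    (3 - 6 / 1000000) * (P.filter big).card + (P.filter fun Q => ¬ big Q).card +
      ((P.filter fun Q => ¬ big Q).filter fun Q => ∃ u ∈ A, u ∈ Q).card +
      ((P.filter fun Q => ¬ big Q).filter fun Q => ∃ u ∈ K, u ∈ Q).card := by
  unfold bt
  rw [sum_ite, ← sum_div, sum_add_distrib, sum_add_distrib, sum_boole, sum_boole, sum_const,
    sum_const, nsmul_eq_mul, nsmul_eq_mul]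
  ring

theorem Crit.has_big (h : Crit k G U L) (hk : 10 ^ 12 ≤ k) {z : V} (hz : z ∈ U)
    (h5 : (pts L z).card ≤ 5) : 1 ≤ ((pts L z).filter big).card := by
  refine card_pos.2 (filter_nonempty_iff.2 ?_)
  by_contra! x
  have := (h.deg0 hz).trans (sum_le_card_nsmul _ _ 1000000 fun K y => by
    have := not_le.1 (x K y)
    omega)
  rw [smul_eq_mul] at this
  omega

theorem Crit.vw (h : Crit k G U L) (hk : 10 ^ 12 ≤ k) (K : Finset V) {A : Finset V}
    (hA : ∀ u ∈ A, ∀ v ∈ A, ¬ G.Adj u v) {z : V} (hz : z ∈ U) (p : Prop) [Decidable p] :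
    (if p then (((A.filter (G.Adj z)).card - 1 : ℕ) : ℝ) else 0) +
      (if Rich L z then if p then 1 else 2 else
        if ∃ Q ∈ pts L z, ¬ big Q ∧ ∃ u ∈ K, u ∈ Q then 1 else 0) ≤
      4 * (∑ Q ∈ pts L z, bt A K Q - 1) + 12 / 1000000 := by
  have a1 : (A.filter (G.Adj z)).card ≤ ((pts L z).filter big).card +
      (((pts L z).filter fun Q => ¬ big Q).filter fun Q => ∃ u ∈ A, u ∈ Q).card := by
    refine le_trans ?_ (card_union_le _ _)
    refine card_le_card_of_forall_subsingleton (fun u Q => u ∈ Q) (fun u a => ?_) fun Q a => ?_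
    · obtain ⟨Q, b1, b2, b3⟩ := h.cov _ _ (mem_filter.1 a).2
      refine ⟨Q, mem_union.2 ?_, b3⟩
      by_cases d : big Q
      · exact Or.inl (mem_filter.2 ⟨mem_pts.2 ⟨b1, b2⟩, d⟩)
      · exact Or.inr (mem_filter.2 ⟨mem_filter.2 ⟨mem_pts.2 ⟨b1, b2⟩, d⟩, u, (mem_filter.1 a).1, b3⟩)
    · have hQ : Q ∈ L := (mem_union.1 a).elim (fun b => (mem_pts.1 (mem_filter.1 b).1).1)
        fun b => (mem_pts.1 (mem_filter.1 (mem_filter.1 b).1).1).1
      exact fun u b v d => by_contra fun n => hA u (mem_filter.1 b.1).1 v (mem_filter.1 d.1).1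
        (h.cl Q hQ u b.2 v d.2 n)
  have a2 := card_filter_add_card_filter_not (s := pts L z) big
  have a3 := card_filter_le ((pts L z).filter fun Q => ¬ big Q) fun Q => ∃ u ∈ A, u ∈ Q
  have a4 := h.two_le (by omega) hz
  have a5 := h.has_big hk hz
  have a6 : (∃ Q ∈ pts L z, ¬ big Q ∧ ∃ u ∈ K, u ∈ Q) →
      1 ≤ (((pts L z).filter fun Q => ¬ big Q).filter fun Q => ∃ u ∈ K, u ∈ Q).card :=
    fun ⟨Q, b1, b2, b3⟩ => card_pos.2 ⟨Q, mem_filter.2 ⟨mem_filter.2 ⟨b1, b2⟩, b3⟩⟩
  rw [mul_sub, bt_sum]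
  unfold Rich
  rw [← a2] at a4 a5 ⊢
  generalize ((pts L z).filter big).card = l at *
  generalize (((pts L z).filter fun Q => ¬ big Q).filter fun Q => ∃ u ∈ A, u ∈ Q).card = j at *
  generalize (((pts L z).filter fun Q => ¬ big Q).filter fun Q => ∃ u ∈ K, u ∈ Q).card = t at *
  generalize ((pts L z).filter fun Q => ¬ big Q).card = s at *
  generalize (A.filter (G.Adj z)).card = a at *
  have key : ∀ m n : ℕ, 1000000 * (m + n + 4) + 6 * l ≤ 1000000 * (3 * l + s + j + t) + 12 →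
      (m : ℝ) + n ≤ (3 - 6 / 1000000) * l + s + j + t - 4 * 1 + 12 / 1000000 := fun m n e => by
    have := (Nat.cast_le (α := ℝ)).2 e
    push_cast at this
    linarith
  split_ifs with b1 b2 b3 b2 b3
  · exact_mod_cast key (a - 1) 1 (by omega)
  · exact_mod_cast key (a - 1) 1 (by have := a6 b3; omega)
  · exact_mod_cast key (a - 1) 0 (by omega)
  · exact_mod_cast key 0 2 (by omega)
  · exact_mod_cast key 0 1 (by have := a6 b3; omega)
  · exact_mod_cast key 0 0 (by omega)

theorem Crit.ind_le (h : Crit k G U L) {A : Finset V} (hU : A ⊆ U)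
    (hA : ∀ u ∈ A, ∀ v ∈ A, ¬ G.Adj u v) : (A.card : ℝ) * 1000000 * k ≤
      (k + 10 ^ 12) * ∑ Q ∈ L, (Q.card : ℝ) := by
  have a1 : (A.filter fun z => 1000000 ≤ (pts L z).card).card • (1000000 : ℝ) ≤
      ∑ Q ∈ L, (Q.card : ℝ) := by
    have := h.sum_pts ∅ fun _ => 1
    simp only [sdiff_empty, sum_const, nsmul_eq_mul, mul_one, one_mul] at this
    rw [← this]
    exact (card_nsmul_le_sum _ _ _ fun z a => by exact_mod_cast (mem_filter.1 a).2).trans
      (sum_le_sum_of_subset_of_nonneg ((filter_subset _ _).trans hU) fun _ _ _ => Nat.cast_nonneg _)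
  have a2 : (A.filter fun z => ¬ 1000000 ≤ (pts L z).card).card ≤
      (L.filter fun Q => k ≤ 1000000 * Q.card).card := by
    refine card_le_card_of_forall_subsingleton (fun u Q => u ∈ Q) (fun u a => ?_) fun Q a => ?_
    · obtain ⟨b1, b2⟩ := mem_filter.1 a
      by_contra! x
      have d := h.deg0 (hU b1)
      have e := sum_le_card_nsmul (pts L u) (fun Q => 1000000 * (Q.card - 1)) k fun Q y => by
        have := mt (fun n => mem_filter.2 ⟨(mem_pts.1 y).1, n⟩) fun n => x Q n (mem_pts.1 y).2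
        omega
      rcases Nat.eq_zero_or_pos k with rfl | k0
      · obtain ⟨c, -⟩ := h.crit u (hU b1)
        exact (c u).elim0
      rw [← mul_sum, smul_eq_mul] at e
      nlinarith
    · exact fun u b v d => by_contra fun n => hA u (mem_filter.1 b.1).1 v (mem_filter.1 d.1).1
        (h.cl Q (mem_filter.1 a).1 u b.2 v d.2 n)
  have a3 : (L.filter fun Q => k ≤ 1000000 * Q.card).card • (k : ℝ) ≤
      ∑ Q ∈ L, 1000000 * (Q.card : ℝ) :=
    (card_nsmul_le_sum _ _ _ fun z a => by exact_mod_cast (mem_filter.1 a).2).trans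
      (sum_le_sum_of_subset_of_nonneg (filter_subset _ _) fun _ _ _ => by positivity)
  have a4 := card_filter_add_card_filter_not (s := A) fun z => 1000000 ≤ (pts L z).card
  rw [nsmul_eq_mul] at a1 a3
  rw [← mul_sum] at a3
  rw [← a4, Nat.cast_add]
  have a5 := mul_le_mul_of_nonneg_right ((Nat.cast_le (α := ℝ)).2 a2) (Nat.cast_nonneg k)
  have a6 := mul_le_mul_of_nonneg_right a1 (Nat.cast_nonneg k)
  nlinarith

theorem arith {k N W a u t T X Y e f w : ℝ} (k0 : 10 ^ 12 ≤ k) (hW : W < k ^ 2 / 6)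
    (a1 : X ≤ a + f) (a2 : Y ≤ e) (a3 : w - T ≤ W) (a4 : f + e ≤ 4 * w + t * (12 / 1000000))
    (a5 : a * 1000000 * k ≤ (k + 10 ^ 12) * N) (a6 : N ≤ 400 * W) (a7 : u ≤ N) (a8 : t ≤ u)
    (a9 : T ≤ k + a) (N0 : 0 ≤ N) : X + Y + a ≤ 0.67 * k ^ 2 := by
  have b0 : N ≤ 67 * k ^ 2 := by nlinarith
  have b1 : a ≤ 134 / 1000000 * k ^ 2 := by
    refine le_of_mul_le_mul_right ?_ (show (0 : ℝ) < 1000000 * k by linarith)
    have := mul_le_mul (show k + 10 ^ 12 ≤ 2 * k by linarith) b0 N0 (by linarith)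
    nlinarith
  nlinarith

theorem Crit.master (h : Crit k G U L) (hk : 10 ^ 12 ≤ k)
    (hW : ∑ Q ∈ L, fw Q.card - U.card < (k : ℝ) ^ 2 / 6) {K : Finset V} (hK : K ∈ L) {x : V}
    (hx : x ∈ K) : ∃ (R A : Finset V) (φ : V → ℝ), R ⊆ K ∧ (∀ u ∈ A, ∀ v ∈ A, ¬ G.Adj u v) ∧
      ∑ y ∈ K, φ y + A.card ≤ 0.67 * (k : ℝ) ^ 2 ∧ k + 1 ≤ R.card + (nbO G U K x).card ∧
      (∀ y ∈ R, (∀ z ∈ nbO G U K y, Rich L z ∨ ∃ Q ∈ pts L z, ¬ big Q ∧ ∃ u ∈ K, u ∈ Q) →
        (k : ℝ) - 2 ≤ φ y) ∧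
      (∀ y ∈ R, (∀ z ∈ nbO G U K y, Rich L z) → 2 * (k : ℝ) - K.card - 2 ≤ φ y) ∧
      ∀ y ∈ K, ∀ Q ⊆ nbO G U K y, (∀ z ∈ Q, Rich L z) →
        (Q.card : ℝ) - (Q.filter (· ∈ A)).card - 1 ≤ φ y := by
  have k0 : (10 : ℝ) ^ 12 ≤ k := by exact_mod_cast hk
  obtain ⟨c, hc⟩ := h.crit x (h.sub K hK hx)
  have hC : ((K.erase x).image c).card + 1 ≤ K.card :=
    (Nat.add_le_add_right card_image_le 1).trans_eq (card_erase_add_one hx)
  have hKk := h.le K hK
  obtain ⟨α, -, hα'⟩ := exists_mem_notMem_of_card_lt_card (s := (K.erase x).image c) (t := univ)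
    (by rw [card_univ, Fintype.card_fin]; omega)
  have hα : ∀ u ∈ K, u ≠ x → c u ≠ α := fun u a b d => hα' (mem_image.2 ⟨u, mem_erase.2 ⟨b, a⟩, d⟩)
  set A := cls U x c α with hAd
  have hA : ∀ u ∈ A, ∀ v ∈ A, ¬ G.Adj u v := fun u a v b d => hc u v d (mem_filter.1 a).2.1
    (mem_filter.1 b).2.1 ((mem_filter.1 a).2.2.trans (mem_filter.1 b).2.2.symm)
  let ex : V → ℝ := fun z => if Rich L z then if c z ∈ (K.erase x).image c then 1 else 2 else
    if ∃ Q ∈ pts L z, ¬ big Q ∧ ∃ u ∈ K, u ∈ Q then 1 else 0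
  have ex0 : ∀ z, 0 ≤ ex z := fun z => by
    simp only [ex]
    split_ifs <;> norm_num
  have ex1 : ∀ z, (Rich L z ∨ ∃ Q ∈ pts L z, ¬ big Q ∧ ∃ u ∈ K, u ∈ Q) → 1 ≤ ex z := fun z a => by
    simp only [ex]
    split_ifs with b1 b2 b3
    · exact le_rfl
    · exact one_le_two
    · exact le_rfl
    · exact (a.elim b1 b3).elim
  have im : ∀ y ∈ K, ∀ (s : Finset V) (t : Finset (Fin k)), s ⊆ nbO G U K y → t ⊆ s.image c →
      (t.card : ℝ) ≤ (s.filter (· ∉ A)).card + 1 := fun y a s t b d => by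
    have : t ⊆ insert α ((s.filter (· ∉ A)).image c) := fun β e => by
      obtain ⟨z, f, rfl⟩ := mem_image.1 (d e)
      by_cases g : c z = α
      · exact g ▸ mem_insert_self _ _
      · exact mem_insert_of_mem (mem_image_of_mem _ (mem_filter.2 ⟨f, fun n =>
          g (mem_filter.1 n).2.2⟩))
    exact_mod_cast (card_le_card this).trans ((card_insert_le _ _).trans
      (Nat.add_le_add_right card_image_le 1))
  have sk : ∀ y, (((nbO G U K y).image c).card : ℝ) ≤ k := fun y => by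
    exact_mod_cast (card_le_univ _).trans_eq (Fintype.card_fin k)
  refine ⟨fan G U K x c, A, fun y => (if y ∈ fan G U K x c then
    (k : ℝ) - 1 - ((nbO G U K y).image c).card else 0) + ∑ z ∈ nbO G U K y with z ∉ A, ex z,
    filter_subset _ _, hA, ?_, h.fan_card hx hc, fun y a b => ?_, fun y a b => ?_,
    fun y a Q b d => ?_⟩
  · have a1 := h.kempe hK hc hα
    have a2 := h.sum_O hK (fun z => if z ∉ A then ex z else 0) fun z => by
      split_ifs
      · exact le_rfl
      · exact ex0 z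
    have a3 := h.wt (K ∪ A) (bt A K) fun Q a => bt_le (fun u b d =>
      hα u d (mem_filter.1 b).2.1 (mem_filter.1 b).2.2) (h.two Q a)
    have a4 := sum_le_sum (s := U \ (K ∪ A)) fun z a =>
      h.vw hk K hA (mem_sdiff.1 a).1 (c z ∈ (K.erase x).image c)
    have a5 := h.ind_le (A := A) (filter_subset _ _) hA
    have a6 := h.inc_le (by omega)
    have a7 : (U.card : ℝ) ≤ ∑ Q ∈ L, (Q.card : ℝ) := by
      have := h.sum_pts ∅ fun _ => 1
      simp only [sdiff_empty, sum_const, nsmul_eq_mul, mul_one, one_mul] at this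
      rw [← this, ← mul_one (U.card : ℝ), ← nsmul_eq_mul]
      exact card_nsmul_le_sum _ _ _ fun z a => by
        exact_mod_cast one_le_two.trans (h.two_le (by omega) a)
    have a8 : ((U \ (K ∪ A)).card : ℝ) ≤ U.card := Nat.cast_le.2 (card_le_card sdiff_subset)
    have a9 : ((K ∪ A).card : ℝ) ≤ k + A.card := by
      exact_mod_cast (card_union_le _ _).trans (Nat.add_le_add_right hKk _)
    simp only [← sum_filter] at a2
    rw [← sdiff_eq_filter (U \ K), sdiff_sdiff_left, sup_eq_union] at a2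
    rw [sum_add_distrib, sum_add_distrib, ← mul_sum, sum_const, nsmul_eq_mul] at a4
    rw [sum_add_distrib, ← sum_filter, filter_mem_eq_inter,
      inter_eq_right.2 (show fan G U K x c ⊆ K from filter_subset _ _)]
    rw [← hAd] at a1
    change _ + ∑ z ∈ U \ (K ∪ A), ex z ≤ _ at a4
    exact arith k0 hW a1 a2 a3 a4 a5 a6 a7 a8 a9 (sum_nonneg fun _ _ => Nat.cast_nonneg _)
  · have := im y (filter_subset _ _ a) _ _ subset_rfl subset_rfl
    have := card_nsmul_le_sum ((nbO G U K y).filter (· ∉ A)) ex 1 fun z d =>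
      ex1 z (b z (mem_filter.1 d).1)
    rw [nsmul_eq_mul] at this
    simp only [if_pos a]
    linarith
  · have a1 := im y (filter_subset _ _ a) _ _ subset_rfl subset_rfl
    have a2 := im y (filter_subset _ _ a) ((nbO G U K y).filter fun z => c z ∉ (K.erase x).image c)
      ((K.erase x).image c)ᶜ (filter_subset _ _) fun β d => by
        obtain ⟨z, e, rfl⟩ := mem_image.1 (h.fan_seen hK hc a (mem_compl.1 d))
        exact mem_image_of_mem _ (mem_filter.2 ⟨e, mem_compl.1 d⟩)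
    have a3 : ∑ z ∈ nbO G U K y with z ∉ A, (1 + if c z ∉ (K.erase x).image c then (1 : ℝ) else 0) ≤
        ∑ z ∈ nbO G U K y with z ∉ A, ex z := sum_le_sum fun z d => by
      simp only [ex, if_pos (b z (mem_filter.1 d).1)]
      split_ifs <;> norm_num
    have a4 := (Nat.cast_le (α := ℝ)).2 hC
    rw [sum_add_distrib, sum_const, nsmul_eq_mul, sum_boole, filter_comm] at a3
    rw [card_compl, Fintype.card_fin, Nat.cast_sub (by omega)] at a2
    push_cast at a4
    simp only [if_pos a]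
    linarith
  · have a1 := (card_nsmul_le_sum (Q.filter (· ∉ A)) ex 1 fun z e =>
      ex1 z (Or.inl (d z (mem_filter.1 e).1))).trans (sum_le_sum_of_subset_of_nonneg
        (filter_subset_filter _ b) fun z _ _ => ex0 z)
    have a2 := congrArg (Nat.cast (R := ℝ)) (card_filter_add_card_filter_not (s := Q) (· ∈ A))
    have := sk y
    rw [nsmul_eq_mul] at a1
    push_cast at a2
    dsimp only
    split_ifs <;> linarith

end Pool.Agent.P.MP_1fec7a_co.K68
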