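import Pool.Agent.P.MP_1fec7a_co.K68.Lin

/-! The weighted Euler inequality for sets of incidences of a hypergraph. -/

namespace Pool.Agent.P.MP_1fec7a_co.K68

open Finset Function

theorem reach_eq {W X : Type} {I : SimpleGraph W} (y : W → X) (h : ∀ a b, I.Adj a b → y a = y b)
    {a b : W} (hab : I.connectedComponentMk a = I.connectedComponentMk b) : y a = y b := by
  obtain ⟨p⟩ := SimpleGraph.ConnectedComponent.exact hab
  induction p with
  | nil => rfl
  | cons h' _ ih => exact (h _ _ h').trans (ih (SimpleGraph.ConnectedComponent.sound ⟨‹_›⟩))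

theorem cyc_inv {X Y : Type} [Finite X] {σ : Equiv.Perm X} {t : X → Y} (h : ∀ d, t (σ d) = t d)
    {a b : X} (hab : σ.SameCycle a b) : t a = t b := by
  obtain ⟨n, -, rfl⟩ := hab.exists_pow_eq'
  induction n with
  | zero => rfl
  | succ n ih => rw [pow_succ', Equiv.Perm.mul_apply, h]; exact ih ⟨n, by simp⟩

variable {V ι : Type} (E : ι → Set V)

/-- The dart of an incidence. -/
def dl (p : {p : V × ι // p.1 ∈ E p.2}) : (incidenceGraph E).Dart :=
  ⟨(Sum.inl p.1.1, Sum.inr p.1.2), by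
    simp only [incidenceGraph, SimpleGraph.fromRel_adj]
    exact ⟨by simp, Or.inl ⟨p.1.1, p.1.2, rfl, rfl, p.2⟩⟩⟩

theorem dl_bij : Bijective (Sum.elim (dl E) fun p => (dl E p).symm) := by
  constructor
  · rintro (p | p) (q | q) h <;>
      simp only [Sum.elim_inl, Sum.elim_inr, dl, SimpleGraph.Dart.ext_iff,
        SimpleGraph.Dart.symm_toProd, Prod.swap, Prod.mk.injEq, Sum.inl.injEq, Sum.inr.injEq,
        reduceCtorEq, false_and] at h
    · exact congrArg _ (Subtype.ext (Prod.ext h.1 h.2))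
    · exact congrArg _ (Subtype.ext (Prod.ext h.2 h.1))
  · rintro ⟨⟨a, b⟩, h⟩
    have h' := h
    simp only [incidenceGraph, SimpleGraph.fromRel_adj] at h'
    obtain ⟨-, ⟨v, i, rfl, rfl, hv⟩ | ⟨v, i, rfl, rfl, hv⟩⟩ := h'
    · exact ⟨Sum.inl ⟨(v, i), hv⟩, rfl⟩
    · exact ⟨Sum.inr ⟨(v, i), hv⟩, rfl⟩

theorem euler [Finite V] [Finite ι] [DecidableEq V] [DecidableEq ι] (S : Finset (V × ι))
    (hS : ∀ p ∈ S, p.1 ∈ E p.2) (ω : V × ι → ℝ) (hω : ∀ p, 0 ≤ ω p)
    (hT : ∀ T ⊆ S, T.Nonempty → (∀ p ∈ T, ∃ q ∈ T, q ≠ p ∧ q.1 = p.1) →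
      (∀ p ∈ T, ∃ q ∈ T, q ≠ p ∧ q.2 = p.2) → 1 ≤ ∑ p ∈ T, ω p) :
    (S.card : ℝ) ≤ (S.image Prod.fst).card + (S.image Prod.snd).card + 2 * ∑ p ∈ S, ω p +
      2 * genus (incidenceGraph E) := by
  classical
  let I := incidenceGraph E
  have := Fintype.ofFinite V
  have := Fintype.ofFinite ι
  obtain ⟨σ, hσ, he⟩ : genus I ∈ {g : ℕ | ∃ σ : Equiv.Perm I.Dart, IsRotationSystem I σ ∧
      2 * Nat.card I.ConnectedComponent + Nat.card I.edgeSet ≤
        Nat.card (V ⊕ ι) + faceCount I σ + 2 * g} := by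
    obtain ⟨σ, hσ⟩ := exists_perm_fibres (fun d : I.Dart => d.fst)
    exact Nat.sInf_mem ⟨Nat.card I.ConnectedComponent + Nat.card I.edgeSet, σ, hσ, by omega⟩
  let Q := Quotient (Equiv.Perm.SameCycle.setoid (σ * dartReverse I))
  let Φ := Q ⊕ {w : V ⊕ ι // ∀ x, ¬ I.Adj w x}
  have := Fintype.ofFinite Φ
  have := Fintype.ofFinite I.ConnectedComponent
  have hf : ∀ d : I.Dart, (σ d).fst = d.fst := fun d => ((hσ d (σ d)).1 ⟨1, by simp⟩).symm
  have hq : ∀ d : I.Dart, (⟦d.symm⟧ : Q) = ⟦σ d⟧ := fun d =>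
    Quotient.sound ⟨1, by simp [dartReverse]⟩
  have hsum : ∀ F : I.Dart → ZMod 2, ∑ d, F d = ∑ p, (F (dl E p) + F (dl E p).symm) := fun F => by
    rw [← (dl_bij E).sum_comp, Fintype.sum_sum_type, sum_add_distrib]
    rfl
  let ρ : Φ → I.ConnectedComponent := Sum.elim
    (Quotient.lift (fun d => I.connectedComponentMk d.fst) fun a b hab =>
      cyc_inv (t := fun d : I.Dart => I.connectedComponentMk d.fst) (fun d => by
        have : (σ * dartReverse I) d = σ d.symm := rfl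
        rw [this, hf]
        exact SimpleGraph.ConnectedComponent.sound d.adj.symm.reachable) hab)
    fun w => I.connectedComponentMk w.1
  let S' : Finset {p : V × ι // p.1 ∈ E p.2} := univ.filter fun p => p.1 ∈ S
  have hS' : S'.image Subtype.val = S := by
    ext p
    simp only [S', mem_image, mem_filter, mem_univ, true_and]
    exact ⟨fun ⟨q, hq, h⟩ => h ▸ hq, fun h => ⟨⟨p, hS p h⟩, h, rfl⟩⟩
  have key := weighted (D := {p : V × ι // p.1 ∈ E p.2}) (W := V ⊕ ι) (Φ := Φ)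
    (fun p => Sum.inl p.1.1) (fun p => Sum.inr p.1.2) (fun p => Sum.inl ⟦dl E p⟧)
    (fun p => Sum.inl ⟦(dl E p).symm⟧) I.connectedComponentMk ρ (genus I) ?_ ?_ ?_ ?_ S'
    (fun p => ω p.1) (fun p => hω _) ?_
  · rw [← hS', card_image_of_injective _ Subtype.val_injective,
      sum_image fun _ _ _ _ h => Subtype.val_injective h]
    refine key.trans ?_
    gcongr
    rw [← Nat.cast_add, Nat.cast_le]
    refine (card_union_le _ _).trans (add_le_add ?_ ?_)
    · refine le_trans (le_of_eq ?_) (card_image_le (f := (Sum.inl : V → V ⊕ ι)))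
      rw [image_image, image_image]
      rfl
    · refine le_trans (le_of_eq ?_) (card_image_le (f := (Sum.inr : ι → V ⊕ ι)))
      rw [image_image, image_image]
      rfl
  · intro s w
    have h1 := hsum fun d => if d.fst = w then s (Sum.inl ⟦d⟧) + s (Sum.inl ⟦d.symm⟧) else 0
    have h2 := Equiv.sum_comp σ fun d : I.Dart => if d.fst = w then s (Sum.inl ⟦d⟧) else 0
    simp only [SimpleGraph.Dart.symm_symm] at h1
    refine Eq.trans (Eq.trans (sum_congr rfl fun p _ => ?_) h1.symm) ?_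
    · rw [add_comm (s (Sum.inl ⟦(dl E p).symm⟧))]
      rfl
    · simp only [hf] at h2
      simp only [hq, ite_add_zero, sum_add_distrib, h2]
      exact CharTwo.add_self_eq_zero _
  · intro y hy w w' h
    refine reach_eq y (fun a b hab => ?_) h
    obtain ⟨p | p, hp⟩ := (dl_bij E).2 ⟨(a, b), hab⟩ <;>
      obtain ⟨rfl, rfl⟩ := Prod.ext_iff.1 (congrArg SimpleGraph.Dart.toProd hp)
    · exact hy p
    · exact (hy p).symm
  · intro s hs
    have h1 : ∀ d : I.Dart, s (Sum.inl ⟦d.symm⟧) = s (Sum.inl ⟦d⟧) := fun d => by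
      obtain ⟨p | p, rfl⟩ := (dl_bij E).2 d
      · exact (hs p).symm
      · exact hs p
    have h2 : ∀ a b : I.Dart, a.fst = b.fst → s (Sum.inl ⟦a⟧) = s (Sum.inl ⟦b⟧) := fun a b h =>
      cyc_inv (t := fun d => s (Sum.inl ⟦d⟧)) (fun d => by rw [← hq, h1]) ((hσ a b).2 h)
    let y : V ⊕ ι → ZMod 2 := fun w =>
      if h : ∃ x, I.Adj w x then s (Sum.inl ⟦⟨(w, h.choose), h.choose_spec⟩⟧)
      else s (Sum.inr ⟨w, not_exists.1 h⟩)
    have h3 : ∀ d : I.Dart, y d.fst = s (Sum.inl ⟦d⟧) := fun d => by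
      have h : ∃ x, I.Adj d.fst x := ⟨_, d.adj⟩
      simp only [y, dif_pos h]
      exact h2 _ _ rfl
    have h4 : ∀ e, ∃ w, ρ e = I.connectedComponentMk w ∧ s e = y w := by
      rintro (e | w)
      · obtain ⟨d, rfl⟩ := e.exists_rep
        exact ⟨d.fst, rfl, (h3 d).symm⟩
      · exact ⟨w.1, rfl, by simp only [y, dif_neg (not_exists.2 w.2)]⟩
    intro e e' h
    obtain ⟨w, a1, a2⟩ := h4 e
    obtain ⟨w', b1, b2⟩ := h4 e'
    rw [a2, b2]
    exact reach_eq y (fun a b hab => (h3 ⟨(a, b), hab⟩).trans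
      ((h1 _).symm.trans (h3 (SimpleGraph.Dart.symm ⟨(a, b), hab⟩)).symm)) (a1 ▸ b1 ▸ h)
  · have h1 : Nat.card {p : V × ι // p.1 ∈ E p.2} ≤ Nat.card I.edgeSet :=
      Nat.card_le_card_of_injective (fun p => ⟨(dl E p).edge, (dl E p).edge_mem⟩) fun p q h => by
        have h' := congrArg Subtype.val h
        simp only [dl, SimpleGraph.Dart.edge_mk, Sym2.eq, Sym2.rel_iff', Prod.mk.injEq,
          Sum.inl.injEq, Sum.inr.injEq, Prod.swap, reduceCtorEq, false_and, or_false] at h'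
        exact Subtype.ext (Prod.ext h'.1 h'.2)
    have h2 : Nat.card Φ = faceCount I σ := Nat.card_sum
    simp only [← Nat.card_eq_fintype_card]
    omega
  · intro z hz hz0 hzS
    have hm : ∀ d, z d ≠ 0 → d ∈ S'.filter fun d => z d ≠ 0 := fun d hd =>
      mem_filter.2 ⟨by_contra fun h => hd (hzS d h), hd⟩
    refine le_of_le_of_eq (hT ((S'.filter fun d => z d ≠ 0).image Subtype.val)
      (hS' ▸ image_subset_image (filter_subset _ _)) ?_ ?_ ?_)
      (sum_image fun _ _ _ _ h => Subtype.val_injective h)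
    · obtain ⟨d, hd⟩ := Function.ne_iff.1 hz0
      exact ⟨_, mem_image_of_mem _ (hm d hd)⟩
    · intro p hp
      obtain ⟨d, hd, rfl⟩ := mem_image.1 hp
      obtain ⟨d', h1, h2, h3⟩ := (other hz (fun _ _ => Sum.inl_ne_inr) (mem_filter.1 hd).2).1
      exact ⟨_, mem_image_of_mem _ (hm d' h2), fun h => h1 (Subtype.ext h), Sum.inl_injective h3⟩
    · intro p hp
      obtain ⟨d, hd, rfl⟩ := mem_image.1 hp
      obtain ⟨d', h1, h2, h3⟩ := (other hz (fun _ _ => Sum.inl_ne_inr) (mem_filter.1 hd).2).2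
      exact ⟨_, mem_image_of_mem _ (hm d' h2), fun h => h1 (Subtype.ext h), Sum.inr_injective h3⟩

end Pool.Agent.P.MP_1fec7a_co.K68
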